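import Mathlib
import Pool.Agent.W25.QL.Count
import Pool.Agent.H461R2.PD.Comb

set_option autoImplicit false

/-!
# Goldbach or prime tuples, with the constant `18 / 5`: counting in complexes
-/

namespace Pool.Agent.V11161.GV

open Finset
open Pool.Agent.W25.QL (Fails count_pow)
open Pool.Agent.H461R2.PD (Clq cnt density)

/-- the proportion -/
noncomputable def dg (k : ℕ) : ℝ := if k = 1 then 1 else if k = 2 then 1 / 3 else (5 / 9) ^ k

theorem dg_le (k : ℕ) : dg k ≤ 1 := by
  unfold dg
  split_ifs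
  · norm_num
  · norm_num
  · exact pow_le_one₀ (by norm_num) (by norm_num)

/-- the indicator weights of a set `t` of groups -/
theorem not_fails_ind {T : ℕ} {C : Finset (Finset (Fin T))} (hC : ∀ S ∈ C, ∀ S', S' ⊆ S → S' ∈ C)
    (hm : ∀ m, ¬ Fails (9 / 5) C m) (t : Finset (Fin T)) (ht : t.Nonempty) :
    ∃ S ∈ C, S ⊆ t ∧ (t.card : ℝ) ≤ 9 / 5 * S.card := by
  by_contra hcon
  push Not at hcon
  apply hm fun g => if g ∈ t then 1 else 0
  have hsum : ∑ g : Fin T, (if g ∈ t then 1 else 0) = t.card := by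
    rw [Finset.sum_ite_mem, Finset.univ_inter, Finset.sum_const, smul_eq_mul, mul_one]
  refine ⟨?_, fun S hS => ?_⟩
  · rw [hsum]
    exact ht.card_pos
  · have h1 := hcon (S ∩ t) (hC S hS _ inter_subset_left) inter_subset_right
    have h2 : ∑ g ∈ S, (if g ∈ t then 1 else 0) = (S ∩ t).card := by
      rw [Finset.sum_ite_mem, Finset.sum_const, smul_eq_mul, mul_one]
    rw [hsum, h2]
    exact h1

open Classical in
theorem count_one (ε : ℝ) (hε : 0 < ε) :
    ∃ T : ℕ, 1 ≤ T ∧ ∀ C : Finset (Finset (Fin T)),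
      (∀ S ∈ C, ∀ S', S' ⊆ S → S' ∈ C) → (∀ m, ¬ Fails (9 / 5) C m) →
      (1 - ε) * (T : ℝ) ^ (1 + 1) ≤ ((univ.filter (fun u : Fin (1 + 1) → Fin T =>
        Function.Injective u ∧ univ.image u ∈ C)).card : ℝ) := by
  obtain ⟨T, hT⟩ := exists_nat_gt (1 / ε)
  have hT0 : (0 : ℝ) < T := lt_trans (by positivity) hT
  have hT1 : 1 ≤ T := by
    have : 0 < T := by exact_mod_cast hT0
    omega
  refine ⟨T, hT1, fun C hC hm => ?_⟩
  have hall : ∀ u : Fin (1 + 1) → Fin T, Function.Injective u → univ.image u ∈ C := by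
    intro u hu
    obtain ⟨S, hS, hSt, hc⟩ := not_fails_ind hC hm (univ.image u)
      (univ_nonempty.image _)
    have h1 : (univ.image u).card = 2 := by
      rw [card_image_of_injective _ hu, card_univ, Fintype.card_fin]
    rw [h1] at hc
    have h2 : S = univ.image u := by
      apply eq_of_subset_of_card_le hSt
      rw [h1]
      by_contra hlt
      have h3 : S.card ≤ 1 := by omega
      have h4 : (S.card : ℝ) ≤ 1 := by exact_mod_cast h3
      push_cast at hc
      linarith
    rwa [← h2]
  have hcov : (univ : Finset (Fin (1 + 1) → Fin T)) ⊆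
      (univ.filter (fun u : Fin (1 + 1) → Fin T => Function.Injective u ∧ univ.image u ∈ C)) ∪
        univ.image (fun (i : Fin T) => (fun _ : Fin (1 + 1) => i)) := by
    intro u _
    rw [mem_union]
    by_cases h0 : u 0 = u 1
    · right
      rw [mem_image]
      refine ⟨u 0, mem_univ _, ?_⟩
      funext j
      fin_cases j
      · rfl
      · exact h0
    · left
      have hu : Function.Injective u := by
        intro a b hab
        fin_cases a <;> fin_cases b
        · rfl
        · exact absurd hab h0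
        · exact absurd hab.symm h0
        · rfl
      exact mem_filter.2 ⟨mem_univ _, hu, hall u hu⟩
  have hc := (card_le_card hcov).trans (card_union_le _ _)
  rw [card_univ, Fintype.card_fun, Fintype.card_fin, Fintype.card_fin] at hc
  have hc5 : (univ.image (fun (i : Fin T) => (fun _ : Fin (1 + 1) => i))).card ≤ T := by
    refine card_image_le.trans ?_
    rw [card_univ, Fintype.card_fin]
  have hfin : T ^ (1 + 1) ≤ (univ.filter (fun u : Fin (1 + 1) → Fin T =>
      Function.Injective u ∧ univ.image u ∈ C)).card + T := by omega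
  have hfinR : (T : ℝ) ^ (1 + 1) ≤ ((univ.filter (fun u : Fin (1 + 1) → Fin T =>
      Function.Injective u ∧ univ.image u ∈ C)).card : ℝ) + T := by
    exact_mod_cast hfin
  have hes : 1 < ε * T := by
    rw [div_lt_iff₀ hε] at hT
    linarith
  have h9 : (T : ℝ) ≤ ε * (T : ℝ) ^ (1 + 1) := by
    have : (T : ℝ) ^ (1 + 1) = T * T := by ring
    rw [this]
    nlinarith
  linarith

open Classical in
theorem count_two (ε : ℝ) (hε : 0 < ε) :
    ∃ T : ℕ, 1 ≤ T ∧ ∀ C : Finset (Finset (Fin T)),
      (∀ S ∈ C, ∀ S', S' ⊆ S → S' ∈ C) → (∀ m, ¬ Fails (9 / 5) C m) →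
      (1 / 3 - ε) * (T : ℝ) ^ (2 + 1) ≤ ((univ.filter (fun u : Fin (2 + 1) → Fin T =>
        Function.Injective u ∧ univ.image u ∈ C)).card : ℝ) := by
  rcases le_or_gt (1 / 3) ε with hle | hlt
  · refine ⟨1, le_rfl, fun C _ _ => ?_⟩
    have : (1 / 3 - ε) * ((1 : ℕ) : ℝ) ^ (2 + 1) ≤ 0 :=
      mul_nonpos_of_nonpos_of_nonneg (by linarith) (by positivity)
    exact this.trans (Nat.cast_nonneg _)
  obtain ⟨T, hT⟩ := exists_nat_gt (18 / ε)
  have hT0 : (0 : ℝ) < T := lt_trans (by positivity) hT
  have hT1 : 1 ≤ T := by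
    have : 0 < T := by exact_mod_cast hT0
    omega
  refine ⟨T, hT1, fun C hC hm => ?_⟩
  by_contra hcon
  push Not at hcon
  set B : Finset (Finset (Fin T)) := univ.filter fun I => I.card = 3 ∧ I ∉ C with hB
  have hcount : (T : ℝ) ^ 3 ≤ cnt B 3 3 +
      ((univ.filter fun u : Fin (2 + 1) → Fin T =>
        Function.Injective u ∧ univ.image u ∈ C).card : ℝ) +
      ((univ.filter fun y : Fin 3 → Fin T => ¬ Function.Injective y).card : ℝ) := by
    have h1 : (univ : Finset (Fin 3 → Fin T)) ⊆
        (univ.filter fun u : Fin 3 → Fin T => Clq B 3 u) ∪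
        (univ.filter fun u : Fin (2 + 1) → Fin T => Function.Injective u ∧ univ.image u ∈ C) ∪
        (univ.filter fun y : Fin 3 → Fin T => ¬ Function.Injective y) := by
      intro u _
      simp only [mem_union, mem_filter, mem_univ, true_and]
      by_cases hinj : Function.Injective u
      · left
        by_cases hp : univ.image u ∈ C
        · right
          exact ⟨hinj, hp⟩
        · left
          intro I hI
          have hIu : I = univ := by
            rw [← card_eq_iff_eq_univ, hI, Fintype.card_fin]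
          rw [hIu, hB, mem_filter]
          refine ⟨mem_univ _, ?_, hp⟩
          rw [card_image_of_injective _ hinj, card_univ, Fintype.card_fin]
      · right
        exact hinj
    have h2 := (card_le_card h1).trans ((card_union_le _ _).trans
      (Nat.add_le_add_right (card_union_le _ _) _))
    rw [card_univ, Fintype.card_fun, Fintype.card_fin, Fintype.card_fin] at h2
    unfold cnt
    exact_mod_cast h2
  have hT3 : 3 ≤ T := by
    have h1 : (3 : ℝ) < T := by
      refine lt_of_le_of_lt ?_ hT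
      rw [le_div_iff₀ hε]
      linarith
    exact_mod_cast h1.le
  have hnon := Pool.Agent.H461R2.PD.card_noninj (Fin T) 3 (by rw [Fintype.card_fin]; omega)
    (by rw [Fintype.card_fin]; omega)
  rw [Fintype.card_fin] at hnon
  have hnε : ((3 : ℕ) : ℝ) ^ 2 / T ≤ ε / 2 := by
    rw [div_lt_iff₀ hε] at hT
    rw [div_le_iff₀ hT0]
    push_cast
    linarith
  have hx0 : (0 : ℝ) ≤ 1 / 3 - ε / 2 := by linarith
  have hbad : (1 - (1 / 3 - ε / 2)) * (Fintype.card (Fin T) : ℝ) ^ 3 ≤ cnt B 3 3 := by
    rw [Fintype.card_fin]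
    have h5 : ((3 : ℕ) : ℝ) ^ 2 / T * (T : ℝ) ^ 3 ≤ ε / 2 * (T : ℝ) ^ 3 := by gcongr
    have h6 : (T : ℝ) ^ (2 + 1) = (T : ℝ) ^ 3 := rfl
    rw [h6] at hcon
    linarith
  obtain ⟨-, -, hdens⟩ := density (B := B) (r := 3) (T := 4) (by omega)
    (by rw [Fintype.card_fin]; omega) hx0 (by
      have : ((4 - 1).choose (3 - 1) : ℝ) = 3 := by norm_num [Nat.choose]
      rw [this]
      linarith) hbad 4 (by omega) le_rfl
  have hpos : (0 : ℝ) < cnt B 3 4 := by
    refine lt_of_lt_of_le ?_ hdens
    have : ((4 - 1).choose (3 - 1) : ℝ) = 3 := by norm_num [Nat.choose]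
    rw [this]
    have h7 : 0 < 1 - 3 * (1 / 3 - ε / 2) := by linarith
    rw [Fintype.card_fin]
    positivity
  have hpos' : 0 < cnt B 3 4 := by exact_mod_cast hpos
  unfold cnt at hpos'
  obtain ⟨u, hu⟩ := card_pos.1 hpos'
  have hclq : Clq B 3 u := (mem_filter.1 hu).2
  -- `u` is injective
  have hinj : Function.Injective u := by
    intro a b hab
    by_contra hne
    obtain ⟨I, hI1, hI2⟩ : ∃ I : Finset (Fin 4), {a, b} ⊆ I ∧ I.card = 3 := by
      obtain ⟨I, h1, -, h2⟩ := exists_subsuperset_card_eq (subset_univ ({a, b} : Finset (Fin 4)))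
        (n := 3) (card_le_two.trans (by norm_num)) (by rw [card_univ, Fintype.card_fin]; norm_num)
      exact ⟨I, h1, h2⟩
    have h3 := hclq I hI2
    rw [hB, mem_filter] at h3
    have h4 : (I.image u).card < I.card := by
      apply lt_of_le_of_ne card_image_le
      intro heq
      have h5 := card_image_iff.1 heq
      exact hne (h5 (by exact_mod_cast hI1 (mem_insert_self _ _))
        (by exact_mod_cast hI1 (mem_insert_of_mem (mem_singleton_self _))) hab)
    rw [h3.2.1, hI2] at h4
    exact absurd h4 (lt_irrefl _)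
  have h4c : (univ.image u).card = 4 := by
    rw [card_image_of_injective _ hinj, card_univ, Fintype.card_fin]
  obtain ⟨S, hS, hSt, hc⟩ := not_fails_ind hC hm (univ.image u) (univ_nonempty.image _)
  rw [h4c] at hc
  have h3c : 3 ≤ S.card := by
    by_contra hlt
    have h3 : S.card ≤ 2 := by omega
    have h4 : (S.card : ℝ) ≤ 2 := by exact_mod_cast h3
    push_cast at hc
    linarith
  obtain ⟨S', hS'1, hS'2⟩ := exists_subset_card_eq h3c
  have hS'C := hC S hS S' hS'1
  -- `S'` is the image of a three element set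
  have h9 : (univ.filter fun i => u i ∈ S').image u = S' := by
    ext g
    rw [mem_image]
    constructor
    · rintro ⟨i, hi, rfl⟩
      exact (mem_filter.1 hi).2
    · intro hg
      obtain ⟨i, -, hi⟩ := mem_image.1 (hSt (hS'1 hg))
      exact ⟨i, mem_filter.2 ⟨mem_univ _, by rw [hi]; exact hg⟩, hi⟩
  have h10 : (univ.filter fun i => u i ∈ S').card = 3 := by
    rw [← card_image_of_injective _ hinj, h9, hS'2]
  have h11 := hclq _ h10
  rw [h9, hB, mem_filter] at h11
  exact h11.2.2 hS'C

open Classical in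
theorem hcount (k : ℕ) (ε : ℝ) (hε : 0 < ε) :
    ∃ T : ℕ, 1 ≤ T ∧ ∀ C : Finset (Finset (Fin T)),
      (∀ S ∈ C, ∀ S', S' ⊆ S → S' ∈ C) → (∀ m, ¬ Fails (9 / 5) C m) →
      (dg k - ε) * (T : ℝ) ^ (k + 1) ≤ ((univ.filter (fun u : Fin (k + 1) → Fin T =>
        Function.Injective u ∧ univ.image u ∈ C)).card : ℝ) := by
  by_cases hk : k = 1
  · subst hk
    unfold dg
    rw [if_pos rfl]
    exact count_one ε hε
  · by_cases hk2 : k = 2
    · subst hk2
      unfold dg
      rw [if_neg hk, if_pos rfl]
      exact count_two ε hε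
    · unfold dg
      rw [if_neg hk, if_neg hk2]
      have h := count_pow (lam := 9 / 5) (by norm_num) k ε hε
      have e : (1 / (9 / 5) : ℝ) = 5 / 9 := by norm_num
      rw [e] at h
      exact h

end Pool.Agent.V11161.GV
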