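import Mathlib
import Pool.Agent.V11161.GV.Count2
import Pool.Agent.W25.QL.Main

set_option autoImplicit false

/-!
# Goldbach or prime tuples, with the constant `18 / 5`: two sets of shifts
-/

namespace Pool.Agent.V11161.GV

open Finset
open Pool.Agent.W25.QL (Fails QProp bad_rare)
open Pool.Agent.W70.QP (Cx mem_Cx card_pull)

/-- two failing complexes, side by side -/
theorem fails_append {T : ℕ} {C₁ C₂ : Finset (Finset (Fin T))} {C : Finset (Finset (Fin (T + T)))}
    (h₁ : ∃ m, Fails (9 / 5) C₁ m) (h₂ : ∃ m, Fails (9 / 5) C₂ m)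
    (hC : ∀ S ∈ C, (∃ S₁ ∈ C₁, S = S₁.image (Fin.castAdd T)) ∨
      (∃ S₂ ∈ C₂, S = S₂.image (Fin.natAdd T))) :
    ∃ m, Fails (18 / 5) C m := by
  obtain ⟨m₁, hs₁, h₁⟩ := h₁
  obtain ⟨m₂, hs₂, h₂⟩ := h₂
  set s₁ : ℕ := ∑ g, m₁ g with hs1
  set s₂ : ℕ := ∑ g, m₂ g with hs2
  have hs₁r : (0 : ℝ) < s₁ := by exact_mod_cast hs₁
  have hs₂r : (0 : ℝ) < s₂ := by exact_mod_cast hs₂
  have htot : ∑ g, (Fin.append (fun g => s₂ * m₁ g) (fun g => s₁ * m₂ g) : Fin (T + T) → ℕ) g =
      2 * (s₁ * s₂) := by
    rw [Fin.sum_univ_add]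
    simp only [Fin.append_left, Fin.append_right]
    rw [← mul_sum, ← mul_sum, ← hs1, ← hs2]
    ring
  refine ⟨Fin.append (fun g => s₂ * m₁ g) (fun g => s₁ * m₂ g), ?_, ?_⟩
  · rw [htot]
    nlinarith
  · intro S hS
    rw [htot]
    rcases hC S hS with ⟨S₁, hS₁, rfl⟩ | ⟨S₂, hS₂, rfl⟩
    · rw [sum_image (fun a _ b _ h => Fin.castAdd_injective T T h)]
      simp only [Fin.append_left]
      rw [← mul_sum]
      have h := h₁ S₁ hS₁
      push_cast at h ⊢
      nlinarith
    · rw [sum_image (fun a _ b _ h => Fin.natAdd_injective T T h)]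
      simp only [Fin.append_right]
      rw [← mul_sum]
      have h := h₂ S₂ hS₂
      push_cast at h ⊢
      nlinarith

/-- the complex of a pair of tuples without good cross pairs -/
theorem cx_append {α : Type} [DecidableEq α] {G : Finset α → Prop}
    (hG : ∀ F F' : Finset α, F' ⊆ F → G F → G F') {T : ℕ} (x y : Fin T → α)
    (hcross : ∀ i j, ¬ G {x i, y j}) (S : Finset (Fin (T + T)))
    (hS : S ∈ Cx G (Fin.append x y : Fin (T + T) → α)) :
    (∃ S₁ ∈ Cx G x, S = S₁.image (Fin.castAdd T)) ∨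
      (∃ S₂ ∈ Cx G y, S = S₂.image (Fin.natAdd T)) := by
  rw [mem_Cx] at hS
  by_cases h : ∃ i, Fin.castAdd T i ∈ S
  · left
    obtain ⟨i, hi⟩ := h
    have hno : ∀ j, Fin.natAdd T j ∉ S := by
      intro j hj
      apply hcross i j
      apply hG _ _ _ hS
      intro a ha
      rw [mem_insert, mem_singleton] at ha
      rcases ha with rfl | rfl
      · exact mem_image.2 ⟨_, hi, Fin.append_left _ _ _⟩
      · exact mem_image.2 ⟨_, hj, Fin.append_right _ _ _⟩
    have e : S = (univ.filter fun i => Fin.castAdd T i ∈ S).image (Fin.castAdd T) := by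
      ext g
      rw [mem_image]
      refine Fin.addCases (fun i => ?_) (fun j => ?_) g
      · constructor
        · intro hg
          exact ⟨i, mem_filter.2 ⟨mem_univ _, hg⟩, rfl⟩
        · rintro ⟨i', hi', he⟩
          rw [← he]
          exact (mem_filter.1 hi').2
      · constructor
        · intro hg
          exact absurd hg (hno j)
        · rintro ⟨i', hi', he⟩
          rw [← he]
          exact (mem_filter.1 hi').2
    refine ⟨_, ?_, e⟩
    rw [mem_Cx]
    rw [e, image_image] at hS
    have e2 : (Fin.append x y : Fin (T + T) → α) ∘ Fin.castAdd T = x := by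
      funext i
      exact Fin.append_left _ _ _
    rwa [e2] at hS
  · right
    push Not at h
    have e : S = (univ.filter fun i => Fin.natAdd T i ∈ S).image (Fin.natAdd T) := by
      ext g
      rw [mem_image]
      refine Fin.addCases (fun i => ?_) (fun j => ?_) g
      · constructor
        · intro hg
          exact absurd hg (h i)
        · rintro ⟨i', hi', he⟩
          rw [← he]
          exact (mem_filter.1 hi').2
      · constructor
        · intro hg
          exact ⟨j, mem_filter.2 ⟨mem_univ _, hg⟩, rfl⟩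
        · rintro ⟨i', hi', he⟩
          rw [← he]
          exact (mem_filter.1 hi').2
    refine ⟨_, ?_, e⟩
    rw [mem_Cx]
    rw [e, image_image] at hS
    have e2 : (Fin.append x y : Fin (T + T) → α) ∘ Fin.natAdd T = y := by
      funext i
      exact Fin.append_right _ _ _
    rwa [e2] at hS

open Classical in
/-- the pairs of tuples with a good pair at given places -/
theorem card_cross {α : Type} [DecidableEq α] (V W : Finset α) (hc : V.card = W.card) {T : ℕ}
    (i j : Fin T) (P : α × α → Prop) :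
    (((Fintype.piFinset fun _ : Fin T => V) ×ˢ (Fintype.piFinset fun _ : Fin T => W)).filter
      fun u => P (u.1 i, u.2 j)).card =
      ((V ×ˢ W).filter P).card * V.card ^ (2 * (T - 1)) := by
  have h := card_eq_sum_card_fiberwise
    (s := ((Fintype.piFinset fun _ : Fin T => V) ×ˢ (Fintype.piFinset fun _ : Fin T => W)).filter
      fun u => P (u.1 i, u.2 j)) (t := (V ×ˢ W).filter P)
    (f := fun u => (u.1 i, u.2 j)) (by
      intro u hu
      obtain ⟨h1, h2⟩ := mem_filter.1 (mem_coe.1 hu)
      obtain ⟨h3, h4⟩ := mem_product.1 h1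
      exact mem_coe.2 (mem_filter.2 ⟨mem_product.2 ⟨Fintype.mem_piFinset.1 h3 i,
        Fintype.mem_piFinset.1 h4 j⟩, h2⟩))
  rw [h, sum_const_nat (m := V.card ^ (2 * (T - 1)))]
  intro w hw
  obtain ⟨hw1, hP⟩ := mem_filter.1 hw
  obtain ⟨hwV, hwW⟩ := mem_product.1 hw1
  have e : ((((Fintype.piFinset fun _ : Fin T => V) ×ˢ (Fintype.piFinset fun _ : Fin T => W)).filter
      fun u => P (u.1 i, u.2 j)).filter fun u => (u.1 i, u.2 j) = w) =
      ((Fintype.piFinset fun _ : Fin T => V).filter fun y => y i = w.1) ×ˢ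
        ((Fintype.piFinset fun _ : Fin T => W).filter fun y => y j = w.2) := by
    ext u
    simp only [mem_filter, mem_product]
    constructor
    · rintro ⟨⟨⟨h1, h2⟩, -⟩, h3⟩
      exact ⟨⟨h1, congrArg Prod.fst h3⟩, ⟨h2, congrArg Prod.snd h3⟩⟩
    · rintro ⟨⟨h1, h2⟩, ⟨h3, h4⟩⟩
      have h5 : (u.1 i, u.2 j) = w := Prod.ext h2 h4
      refine ⟨⟨⟨h1, h3⟩, ?_⟩, h5⟩
      rw [h5]
      exact hP
  have hV := Fintype.card_filter_piFinset_const_eq_of_mem (s := V) i hwV
  have hW := Fintype.card_filter_piFinset_const_eq_of_mem (s := W) j hwW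
  rw [Fintype.card_fin] at hV hW
  rw [e, card_product, hV, hW, ← hc, ← pow_add]
  congr 1
  omega

open Classical in
/-- **the dichotomy** -/
theorem dich {α : Type} [DecidableEq α] (G : Finset α → Prop)
    (hG : ∀ F F' : Finset α, F' ⊆ F → G F → G F') (V W : Finset α) (hVW : Disjoint V W)
    (hc : V.card = W.card) (hV : 0 < V.card) (T : ℕ) (hT : 1 ≤ T) (γ : ℝ) (hγ : 0 < γ)
    (hbad : (((Fintype.piFinset (fun _ : Fin (T + T) => V ∪ W)).filter
      (fun z => Function.Injective z ∧ ∃ m, Fails (18 / 5) (Cx G z) m)).card : ℝ) ≤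
        γ ^ 2 / (2 * 4 ^ T) * ((V ∪ W).card : ℝ) ^ (T + T))
    (hg : (((V ×ˢ W).filter fun u => G {u.1, u.2}).card : ℝ) <
      γ ^ 2 / (2 * (T : ℝ) ^ 2) * (V.card : ℝ) ^ 2) :
    (((Fintype.piFinset (fun _ : Fin T => V)).filter
      (fun z => Function.Injective z ∧ ∃ m, Fails (9 / 5) (Cx G z) m)).card : ℝ) <
        γ * (V.card : ℝ) ^ T ∨
    (((Fintype.piFinset (fun _ : Fin T => W)).filter
      (fun z => Function.Injective z ∧ ∃ m, Fails (9 / 5) (Cx G z) m)).card : ℝ) <
        γ * (W.card : ℝ) ^ T := by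
  by_contra hcon
  push Not at hcon
  obtain ⟨h1, h2⟩ := hcon
  set n : ℝ := (V.card : ℝ) with hn
  have hn0 : 0 < n := by rw [hn]; exact_mod_cast hV
  have hT0 : (0 : ℝ) < T := by exact_mod_cast hT
  rw [← hc, ← hn] at h2
  set F₁ := (Fintype.piFinset (fun _ : Fin T => V)).filter
      (fun z => Function.Injective z ∧ ∃ m, Fails (9 / 5) (Cx G z) m) with hF₁
  set F₂ := (Fintype.piFinset (fun _ : Fin T => W)).filter
      (fun z => Function.Injective z ∧ ∃ m, Fails (9 / 5) (Cx G z) m) with hF₂
  set Bad := (Fintype.piFinset (fun _ : Fin (T + T) => V ∪ W)).filter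
      (fun z => Function.Injective z ∧ ∃ m, Fails (18 / 5) (Cx G z) m) with hBad
  set g : ℕ := ((V ×ˢ W).filter fun u => G {u.1, u.2}).card with hgd
  have hcov : F₁ ×ˢ F₂ ⊆ (F₁ ×ˢ F₂).filter (fun u => ∀ i j, ¬ G {u.1 i, u.2 j}) ∪
      (univ : Finset (Fin T × Fin T)).biUnion (fun ij =>
        ((Fintype.piFinset fun _ : Fin T => V) ×ˢ (Fintype.piFinset fun _ : Fin T => W)).filter
          fun u => G {u.1 ij.1, u.2 ij.2}) := by
    intro u hu
    rw [mem_union]
    by_cases h : ∀ i j, ¬ G {u.1 i, u.2 j}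
    · left
      exact mem_filter.2 ⟨hu, h⟩
    · right
      push Not at h
      obtain ⟨i, j, hij⟩ := h
      rw [mem_biUnion]
      obtain ⟨h3, h4⟩ := mem_product.1 hu
      exact ⟨(i, j), mem_univ _, mem_filter.2 ⟨mem_product.2 ⟨(mem_filter.1 h3).1,
        (mem_filter.1 h4).1⟩, hij⟩⟩
  have hA : ((F₁ ×ˢ F₂).filter (fun u => ∀ i j, ¬ G {u.1 i, u.2 j})).card ≤ Bad.card := by
    refine card_le_card_of_injOn (fun u => (Fin.append u.1 u.2 : Fin (T + T) → α)) ?_ ?_
    · intro u hu
      obtain ⟨h3, h4⟩ := mem_filter.1 (mem_coe.1 hu)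
      obtain ⟨h5, h6⟩ := mem_product.1 h3
      obtain ⟨h7, h8, h9⟩ := mem_filter.1 h5
      obtain ⟨k7, k8, k9⟩ := mem_filter.1 h6
      rw [Fintype.mem_piFinset] at h7 k7
      refine mem_coe.2 (mem_filter.2 ⟨?_, ?_, ?_⟩)
      · rw [Fintype.mem_piFinset]
        intro g
        refine Fin.addCases (fun i => ?_) (fun j => ?_) g
        · simp only [Fin.append_left]
          exact mem_union_left _ (h7 i)
        · simp only [Fin.append_right]
          exact mem_union_right _ (k7 j)
      · intro a b hab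
        simp only at hab
        revert hab
        refine Fin.addCases (fun i => ?_) (fun j => ?_) a
        · refine Fin.addCases (fun i' => ?_) (fun j' => ?_) b
          · intro hab
            simp only [Fin.append_left] at hab
            rw [h8 hab]
          · intro hab
            simp only [Fin.append_left, Fin.append_right] at hab
            exact absurd (hab ▸ k7 j') (disjoint_left.1 hVW (h7 i))
        · refine Fin.addCases (fun i' => ?_) (fun j' => ?_) b
          · intro hab
            simp only [Fin.append_left, Fin.append_right] at hab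
            exact absurd (k7 j) (disjoint_left.1 hVW (hab ▸ h7 i'))
          · intro hab
            simp only [Fin.append_right] at hab
            rw [k8 hab]
      · exact fails_append h9 k9 (cx_append hG _ _ h4)
    · intro u _ u' _ h
      have h' : (Fin.append u.1 u.2 : Fin (T + T) → α) = Fin.append u'.1 u'.2 := h
      refine Prod.ext ?_ ?_
      · funext i
        have := congrFun h' (Fin.castAdd T i)
        rwa [Fin.append_left, Fin.append_left] at this
      · funext i
        have := congrFun h' (Fin.natAdd T i)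
        rwa [Fin.append_right, Fin.append_right] at this
  have hB : ((univ : Finset (Fin T × Fin T)).biUnion (fun ij =>
        ((Fintype.piFinset fun _ : Fin T => V) ×ˢ (Fintype.piFinset fun _ : Fin T => W)).filter
          fun u => G {u.1 ij.1, u.2 ij.2})).card ≤ T * T * (g * V.card ^ (2 * (T - 1))) := by
    refine card_biUnion_le.trans ?_
    rw [sum_const_nat (m := g * V.card ^ (2 * (T - 1)))]
    · rw [card_univ, Fintype.card_prod, Fintype.card_fin]
    · intro ij _
      exact card_cross V W hc ij.1 ij.2 (fun u => G {u.1, u.2})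
  have hprod : F₁.card * F₂.card ≤ Bad.card + T * T * (g * V.card ^ (2 * (T - 1))) := by
    rw [← card_product]
    exact (card_le_card hcov).trans ((card_union_le _ _).trans (Nat.add_le_add hA hB))
  have hprodR : (F₁.card : ℝ) * F₂.card ≤ Bad.card + T * T * (g * n ^ (2 * (T - 1))) := by
    rw [hn]; exact_mod_cast hprod
  have hX : ((V ∪ W).card : ℝ) = 2 * n := by
    rw [card_union_of_disjoint hVW, ← hc, hn]
    push_cast
    ring
  rw [hX] at hbad
  have e1 : γ ^ 2 / (2 * 4 ^ T) * (2 * n) ^ (T + T) = γ ^ 2 / 2 * n ^ (T + T) := by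
    have : (2 * n) ^ (T + T) = 4 ^ T * n ^ (T + T) := by
      rw [mul_pow, ← two_mul, pow_mul]
      norm_num
    rw [this]
    have h4 : (4 : ℝ) ^ T ≠ 0 := by positivity
    field_simp
  rw [e1] at hbad
  have e2 : n ^ 2 * n ^ (2 * (T - 1)) = n ^ (T + T) := by
    rw [← pow_add]; congr 1; omega
  have h6 : (T : ℝ) * T * (g * n ^ (2 * (T - 1))) < γ ^ 2 / 2 * n ^ (T + T) := by
    calc (T : ℝ) * T * (g * n ^ (2 * (T - 1))) <
          T * T * (γ ^ 2 / (2 * (T : ℝ) ^ 2) * n ^ 2 * n ^ (2 * (T - 1))) := by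
          apply mul_lt_mul_of_pos_left _ (by positivity)
          exact mul_lt_mul_of_pos_right hg (by positivity)
      _ = T * T * (γ ^ 2 / (2 * (T : ℝ) ^ 2)) * (n ^ 2 * n ^ (2 * (T - 1))) := by ring
      _ = γ ^ 2 / 2 * n ^ (T + T) := by
          rw [e2]
          field_simp
  have h7 : (γ * n ^ T) * (γ * n ^ T) ≤ (F₁.card : ℝ) * F₂.card :=
    mul_le_mul h1 h2 (by positivity) (by positivity)
  have h8 : (γ * n ^ T) * (γ * n ^ T) = γ ^ 2 * n ^ (T + T) := by
    rw [pow_add]; ring
  linarith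

open Classical in
/-- if the failing tuples are rare, there are many good tuples -/
theorem count_of_rare {lam : ℝ} (k : ℕ) (δ ε : ℝ) (hε : 0 < ε) (hδε : ε < δ) (hδ1 : δ ≤ 1)
    (T : ℕ) (hT1 : 1 ≤ T) (hTc : ∀ C : Finset (Finset (Fin T)),
      (∀ S ∈ C, ∀ S', S' ⊆ S → S' ∈ C) → (∀ m, ¬ Fails lam C m) →
      (δ - ε / 4) * (T : ℝ) ^ (k + 1) ≤ ((univ.filter (fun u : Fin (k + 1) → Fin T =>
        Function.Injective u ∧ univ.image u ∈ C)).card : ℝ)) {α : Type} [DecidableEq α]
    (V : Finset α) (G : Finset α → Prop) (hG : ∀ F F' : Finset α, F' ⊆ F → G F → G F')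
    (hn1 : ⌈4 * (T : ℝ) ^ 2 / ε⌉₊ + 1 ≤ V.card)
    (hbad : (((Fintype.piFinset (fun _ : Fin T => V)).filter (fun x => Function.Injective x ∧
        ∃ m, Fails lam (Cx G x) m)).card : ℝ) ≤ ε / 4 * (V.card : ℝ) ^ T) :
    (δ - ε) * (V.card : ℝ) ^ (k + 1) ≤
      (((Fintype.piFinset (fun _ : Fin (k + 1) => V)).filter (fun y => Function.Injective y ∧
        G (univ.image y))).card : ℝ) := by
  have hε1 : ε ≤ 1 := by linarith
  have hTp : (0 : ℝ) < T := by exact_mod_cast hT1
  set n : ℝ := (V.card : ℝ) with hn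
  have hn0 : 0 < n := by
    have : 0 < V.card := by omega
    rw [hn]; exact_mod_cast this
  have hnT : (T : ℝ) ^ 2 ≤ ε / 4 * n := by
    have h1 : 4 * (T : ℝ) ^ 2 / ε ≤ n := by
      calc 4 * (T : ℝ) ^ 2 / ε ≤ ⌈4 * (T : ℝ) ^ 2 / ε⌉₊ := Nat.le_ceil _
        _ ≤ n := by rw [hn]; exact_mod_cast (by omega : ⌈4 * (T : ℝ) ^ 2 / ε⌉₊ ≤ V.card)
    rw [div_le_iff₀ hε] at h1
    linarith
  have hni := Pool.Agent.H362R2.CM.card_not_injective_le T V
  rw [← hn] at hni
  have hni' : (((Fintype.piFinset (fun _ : Fin T => V)).filter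
      (fun φ => ¬ Function.Injective φ)).card : ℝ) ≤ ε / 4 * n ^ T := by
    have h1 : (((Fintype.piFinset (fun _ : Fin T => V)).filter
      (fun φ => ¬ Function.Injective φ)).card : ℝ) * n ≤ (ε / 4 * n ^ T) * n := by
      refine le_trans (le_of_eq (by congr!)) (hni.trans ?_)
      calc (T : ℝ) ^ 2 * n ^ T ≤ (ε / 4 * n) * n ^ T :=
            mul_le_mul_of_nonneg_right hnT (by positivity)
        _ = _ := by ring
    exact le_of_mul_le_mul_right h1 hn0
  set Bad := (Fintype.piFinset (fun _ : Fin T => V)).filter (fun x => Function.Injective x ∧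
        ∃ m, Fails lam (Cx G x) m) with hBad
  set NI := (Fintype.piFinset (fun _ : Fin T => V)).filter
      (fun φ => ¬ Function.Injective φ) with hNI
  set Gd := (Fintype.piFinset (fun _ : Fin T => V)).filter (fun x => Function.Injective x ∧
        ¬ ∃ m, Fails lam (Cx G x) m) with hGd
  have hGd' : (1 - ε / 2) * n ^ T ≤ (Gd.card : ℝ) := by
    have h1 : (Fintype.piFinset (fun _ : Fin T => V)).card ≤ Bad.card + NI.card + Gd.card := by
      have h2 : Fintype.piFinset (fun _ : Fin T => V) ⊆ Bad ∪ NI ∪ Gd := by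
        intro x hx
        simp only [hBad, hNI, hGd, mem_union, mem_filter]
        by_cases h3 : Function.Injective x
        · by_cases h4 : ∃ m, Fails lam (Cx G x) m
          · exact Or.inl (Or.inl ⟨hx, h3, h4⟩)
          · exact Or.inr ⟨hx, h3, h4⟩
        · exact Or.inl (Or.inr ⟨hx, h3⟩)
      refine (card_le_card h2).trans ((card_union_le _ _).trans ?_)
      exact Nat.add_le_add_right (card_union_le _ _) _
    have h2 : (Fintype.piFinset (fun _ : Fin T => V)).card = V.card ^ T := by
      rw [Fintype.card_piFinset, prod_const, card_univ, Fintype.card_fin]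
    rw [h2] at h1
    have h3 : n ^ T ≤ (Bad.card : ℝ) + NI.card + Gd.card := by
      rw [hn]; exact_mod_cast h1
    linarith
  set P : (Fin (k + 1) → α) → Prop := fun y => Function.Injective y ∧ G (univ.image y) with hP
  set Y := (Fintype.piFinset (fun _ : Fin (k + 1) => V)).filter P with hY
  -- every good tuple contains many good subtuples
  have hlow : ∀ x ∈ Gd, (δ - ε / 4) * (T : ℝ) ^ (k + 1) ≤
      ((univ.filter (fun u : Fin (k + 1) → Fin T => Function.Injective u ∧
        P (fun i => x (u i)))).card : ℝ) := by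
    intro x hx
    rw [hGd, mem_filter] at hx
    obtain ⟨_, hxi, hxf⟩ := hx
    push Not at hxf
    have hdc : ∀ S ∈ Cx G x, ∀ S', S' ⊆ S → S' ∈ Cx G x := by
      intro S hS S' hS'
      rw [mem_Cx] at hS ⊢
      exact hG _ _ (image_subset_image hS') hS
    refine (hTc (Cx G x) hdc hxf).trans ?_
    have : (univ.filter (fun u : Fin (k + 1) → Fin T =>
      Function.Injective u ∧ univ.image u ∈ Cx G x)) ⊆ (univ.filter (fun u : Fin (k + 1) → Fin T =>
        Function.Injective u ∧ P (fun i => x (u i)))) := by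
      intro u hu
      rw [mem_filter] at hu ⊢
      refine ⟨mem_univ _, hu.2.1, hxi.comp hu.2.1, ?_⟩
      have h1 := mem_Cx.1 hu.2.2
      rw [image_image] at h1
      exact h1
    exact_mod_cast card_le_card this
  -- double counting
  have hdc : (∑ x ∈ Fintype.piFinset (fun _ : Fin T => V),
      (univ.filter (fun u : Fin (k + 1) → Fin T => Function.Injective u ∧
        P (fun i => x (u i)))).card) * V.card ^ (k + 1) ≤
      T ^ (k + 1) * (V.card ^ T * Y.card) := by
    have h1 : (∑ x ∈ Fintype.piFinset (fun _ : Fin T => V),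
      (univ.filter (fun u : Fin (k + 1) → Fin T => Function.Injective u ∧
        P (fun i => x (u i)))).card) = ∑ u : Fin (k + 1) → Fin T, if Function.Injective u then
          ((Fintype.piFinset (fun _ : Fin T => V)).filter (fun x => P (fun i => x (u i)))).card else 0 := by
      simp only [card_filter]
      rw [Finset.sum_comm]
      refine Finset.sum_congr rfl fun u _ => ?_
      split_ifs with h
      · simp [h]
      · simp [h]
    rw [h1, Finset.sum_mul]
    calc ∑ u : Fin (k + 1) → Fin T, (if Function.Injective u then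
          ((Fintype.piFinset (fun _ : Fin T => V)).filter (fun x => P (fun i => x (u i)))).card else 0) *
            V.card ^ (k + 1) ≤ ∑ _u : Fin (k + 1) → Fin T, V.card ^ T * Y.card := by
          refine Finset.sum_le_sum fun u _ => ?_
          split_ifs with h
          · refine le_of_eq ?_
            have h9 := card_pull V u h P
            convert h9
          · rw [Nat.zero_mul]; exact Nat.zero_le _
      _ = T ^ (k + 1) * (V.card ^ T * Y.card) := by
          rw [sum_const, card_univ, Fintype.card_fun, Fintype.card_fin, Fintype.card_fin, smul_eq_mul]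
  have hdcR : ((∑ x ∈ Fintype.piFinset (fun _ : Fin T => V),
      (univ.filter (fun u : Fin (k + 1) → Fin T => Function.Injective u ∧
        P (fun i => x (u i)))).card : ℕ) : ℝ) * n ^ (k + 1) ≤
      (T : ℝ) ^ (k + 1) * (n ^ T * Y.card) := by
    rw [hn]; exact_mod_cast hdc
  have hsum : (Gd.card : ℝ) * ((δ - ε / 4) * (T : ℝ) ^ (k + 1)) ≤
      ((∑ x ∈ Fintype.piFinset (fun _ : Fin T => V),
      (univ.filter (fun u : Fin (k + 1) → Fin T => Function.Injective u ∧
        P (fun i => x (u i)))).card : ℕ) : ℝ) := by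
    push_cast
    rw [← nsmul_eq_mul]
    refine (Finset.card_nsmul_le_sum Gd _ _ hlow).trans ?_
    exact Finset.sum_le_sum_of_subset_of_nonneg (filter_subset _ _) fun _ _ _ => Nat.cast_nonneg _
  have hx1 : 0 ≤ 1 - ε / 2 := by linarith
  have ha0 : 0 < δ - ε / 4 := by linarith
  have hTk1 : 0 < (T : ℝ) ^ (k + 1) := by positivity
  have hnT1 : 0 < n ^ T := by positivity
  have hfin : (δ - ε / 4) * (1 - ε / 2) * n ^ (k + 1) ≤ Y.card := by
    have h1 : ((1 - ε / 2) * n ^ T) * ((δ - ε / 4) * (T : ℝ) ^ (k + 1)) * n ^ (k + 1) ≤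
        (T : ℝ) ^ (k + 1) * (n ^ T * Y.card) := by
      refine le_trans ?_ hdcR
      apply mul_le_mul_of_nonneg_right _ (by positivity)
      refine le_trans ?_ hsum
      exact mul_le_mul_of_nonneg_right hGd' (by positivity)
    have h2 : ((T : ℝ) ^ (k + 1) * n ^ T) * ((δ - ε / 4) * (1 - ε / 2) * n ^ (k + 1)) ≤
        ((T : ℝ) ^ (k + 1) * n ^ T) * Y.card := by
      calc ((T : ℝ) ^ (k + 1) * n ^ T) * ((δ - ε / 4) * (1 - ε / 2) * n ^ (k + 1)) =
          ((1 - ε / 2) * n ^ T) * ((δ - ε / 4) * (T : ℝ) ^ (k + 1)) * n ^ (k + 1) := by ring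
        _ ≤ _ := h1
        _ = _ := by ring
    exact le_of_mul_le_mul_left h2 (by positivity)
  refine le_trans ?_ hfin
  apply mul_le_mul_of_nonneg_right _ (by positivity)
  nlinarith [sq_nonneg ε]

end Pool.Agent.V11161.GV
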