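import Mathlib
import Pool.Agent.V11161.GV.Two

set_option autoImplicit false

/-!
# Several sets of linear forms: the combinatorial dichotomy
-/

namespace Pool.Agent.V11161.GV

open Finset
open Pool.Agent.W25.QL (Fails QProp bad_rare)
open Pool.Agent.W70.QP (Cx mem_Cx card_pull)

/-- the place of the `i`-th element of the `j`-th tuple -/
def pl {r T : ℕ} (j : Fin r) (i : Fin T) : Fin (r * T) := finProdFinEquiv (j, i)

theorem pl_inj {r T : ℕ} {j j' : Fin r} {i i' : Fin T} (h : pl j i = pl j' i') :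
    j = j' ∧ i = i' := by
  have := finProdFinEquiv.injective h
  exact ⟨congrArg Prod.fst this, congrArg Prod.snd this⟩

theorem exists_pl {r T : ℕ} (g : Fin (r * T)) : ∃ (j : Fin r) (i : Fin T), g = pl j i :=
  ⟨(finProdFinEquiv.symm g).1, (finProdFinEquiv.symm g).2,
    (Equiv.apply_symm_apply finProdFinEquiv g).symm⟩

/-- the joint tuple -/
def jn {α : Type} {r T : ℕ} (x : Fin r → Fin T → α) (g : Fin (r * T)) : α :=
  x (finProdFinEquiv.symm g).1 (finProdFinEquiv.symm g).2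

theorem jn_pl {α : Type} {r T : ℕ} (x : Fin r → Fin T → α) (j : Fin r) (i : Fin T) :
    jn x (pl j i) = x j i := by
  unfold jn pl
  rw [Equiv.symm_apply_apply]

/-- several failing complexes, side by side -/
theorem fails_joint {r T : ℕ} {lam μ : ℝ} (hμ : lam = r * μ) (hr : 0 < r)
    {Cj : Fin r → Finset (Finset (Fin T))} {C : Finset (Finset (Fin (r * T)))}
    (h : ∀ j, ∃ m, Fails μ (Cj j) m)
    (hC : ∀ S ∈ C, ∃ j, ∃ S' ∈ Cj j, S = S'.image (pl j)) :
    ∃ m, Fails lam C m := by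
  choose m hm1 hm2 using h
  set s : Fin r → ℕ := fun j => ∑ i, m j i with hs
  set P : Fin r → ℕ := fun j => ∏ j' ∈ univ.erase j, s j' with hP
  have hPs : ∀ j, P j * s j = ∏ j', s j' := by
    intro j
    rw [hP]
    exact prod_erase_mul univ s (mem_univ j)
  have hs1 : ∀ j, 1 ≤ s j := hm1
  have hP1 : ∀ j, 1 ≤ P j := fun j => Nat.one_le_iff_ne_zero.2
    (prod_ne_zero_iff.2 fun j' _ => Nat.one_le_iff_ne_zero.1 (hs1 j'))
  have hr' : (0 : ℝ) < r := by exact_mod_cast hr
  set M : Fin (r * T) → ℕ := jn fun j i => P j * m j i with hM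
  have htot : ∑ g, M g = r * ∏ j', s j' := by
    have e1 : ∑ g, M g = ∑ x : Fin r × Fin T, M (finProdFinEquiv x) :=
      (Equiv.sum_comp finProdFinEquiv M).symm
    rw [e1, Fintype.sum_prod_type]
    have e2 : ∀ j : Fin r, ∑ i : Fin T, M (finProdFinEquiv (j, i)) = ∏ j', s j' := by
      intro j
      have e3 : ∀ i : Fin T, M (finProdFinEquiv (j, i)) = P j * m j i := fun i => jn_pl _ j i
      simp only [e3]
      rw [← mul_sum, ← hPs j]
    simp only [e2]
    rw [sum_const, card_univ, Fintype.card_fin, smul_eq_mul]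
  refine ⟨M, ?_, fun S hS => ?_⟩
  · rw [htot]
    have h1 : 1 ≤ ∏ j', s j' := Nat.one_le_iff_ne_zero.2
      (prod_ne_zero_iff.2 fun j' _ => Nat.one_le_iff_ne_zero.1 (hs1 j'))
    exact Nat.mul_pos hr h1
  · obtain ⟨j, S', hS', rfl⟩ := hC S hS
    rw [htot, sum_image (fun a _ b _ h => (pl_inj h).2)]
    have e3 : ∀ i : Fin T, M (pl j i) = P j * m j i := fun i => jn_pl _ j i
    simp only [e3]
    rw [← mul_sum, ← hPs j]
    have h1 := hm2 j S' hS'
    have h2 : (0 : ℝ) < P j := by exact_mod_cast hP1 j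
    have h3 : (s j : ℝ) = ((∑ g, m j g : ℕ) : ℝ) := rfl
    rw [← h3] at h1
    push_cast at h1 ⊢
    rw [hμ]
    have h4 : (r : ℝ) * P j * (μ * ∑ i ∈ S', (m j i : ℝ)) < r * P j * s j :=
      mul_lt_mul_of_pos_left h1 (by positivity)
    linarith

/-- the complex of a family of tuples without good cross pairs -/
theorem cx_joint {α : Type} [DecidableEq α] {G : Finset α → Prop}
    (hG : ∀ F F' : Finset α, F' ⊆ F → G F → G F') {r T : ℕ} (hr : 0 < r) (x : Fin r → Fin T → α)
    (hcross : ∀ j j', j ≠ j' → ∀ i i', ¬ G {x j i, x j' i'}) (S : Finset (Fin (r * T)))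
    (hS : S ∈ Cx G (jn x)) :
    ∃ j, ∃ S' ∈ Cx G (x j), S = S'.image (pl j) := by
  classical
  rw [mem_Cx] at hS
  obtain ⟨j, hj⟩ : ∃ j : Fin r, ∀ g ∈ S, ∃ i, g = pl j i := by
    by_cases hne : S.Nonempty
    · obtain ⟨g₀, hg₀⟩ := hne
      obtain ⟨j, i, rfl⟩ := exists_pl g₀
      refine ⟨j, fun g hg => ?_⟩
      obtain ⟨j', i', rfl⟩ := exists_pl g
      by_cases hjj : j = j'
      · subst hjj
        exact ⟨i', rfl⟩
      · exfalso
        apply hcross j j' hjj i i'
        apply hG _ _ _ hS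
        intro a ha
        rw [mem_insert, mem_singleton] at ha
        rcases ha with rfl | rfl
        · exact mem_image.2 ⟨_, hg₀, jn_pl _ _ _⟩
        · exact mem_image.2 ⟨_, hg, jn_pl _ _ _⟩
    · rw [not_nonempty_iff_eq_empty] at hne
      refine ⟨⟨0, hr⟩, fun g hg => ?_⟩
      rw [hne] at hg
      exact absurd hg (notMem_empty g)
  have e : S = (univ.filter fun i => pl j i ∈ S).image (pl j) := by
    ext g
    rw [mem_image]
    constructor
    · intro hg
      obtain ⟨i, rfl⟩ := hj g hg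
      exact ⟨i, mem_filter.2 ⟨mem_univ _, hg⟩, rfl⟩
    · rintro ⟨i, hi, rfl⟩
      exact (mem_filter.1 hi).2
  refine ⟨j, _, ?_, e⟩
  rw [mem_Cx]
  rw [e, image_image] at hS
  have e2 : (jn x) ∘ (pl j) = x j := by
    funext i
    exact jn_pl _ _ _
  rwa [e2] at hS

open Classical in
/-- **the dichotomy for several sets** -/
theorem dichR {α : Type} [DecidableEq α] (G : Finset α → Prop)
    (hG : ∀ F F' : Finset α, F' ⊆ F → G F → G F') {r : ℕ} (hr : 0 < r) {lam μ : ℝ}
    (hμ : lam = r * μ) (V : Fin r → Finset α) (X : Finset α) (hX : X.card ≤ r * (V ⟨0, hr⟩).card)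
    (hVX : ∀ j, V j ⊆ X)
    (hdis : ∀ j j', j ≠ j' → Disjoint (V j) (V j')) (hc : ∀ j, (V j).card = (V ⟨0, hr⟩).card)
    (hV : 0 < (V ⟨0, hr⟩).card) (T : ℕ) (hT : 1 ≤ T) (γ : ℝ) (hγ : 0 < γ)
    (hbad : (((Fintype.piFinset (fun _ : Fin (r * T) => X)).filter
      (fun z => Function.Injective z ∧ ∃ m, Fails lam (Cx G z) m)).card : ℝ) ≤
        γ ^ r / (2 * (r : ℝ) ^ (r * T)) * (X.card : ℝ) ^ (r * T))
    (hg : ∀ j j', j < j' → (((V j ×ˢ V j').filter fun u => G {u.1, u.2}).card : ℝ) <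
      γ ^ r / (4 * ((r : ℝ) * T) ^ 2 * (r : ℝ) ^ 2 * (r : ℝ) ^ (r * T)) * ((V ⟨0, hr⟩).card : ℝ) ^ 2) :
    ∃ j, (((Fintype.piFinset (fun _ : Fin T => V j)).filter
      (fun z => Function.Injective z ∧ ∃ m, Fails μ (Cx G z) m)).card : ℝ) <
        γ * ((V j).card : ℝ) ^ T := by
  by_contra hcon
  push Not at hcon
  set n : ℝ := ((V ⟨0, hr⟩).card : ℝ) with hn
  have hn0 : 0 < n := by rw [hn]; exact_mod_cast hV
  have hT0 : (0 : ℝ) < T := by exact_mod_cast hT
  have hr0 : (0 : ℝ) < r := by exact_mod_cast hr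
  have hcr : ∀ j, ((V j).card : ℝ) = n := fun j => by rw [hn, hc j]
  simp only [hcr] at hcon
  set F : Fin r → Finset (Fin T → α) := fun j => (Fintype.piFinset (fun _ : Fin T => V j)).filter
      (fun z => Function.Injective z ∧ ∃ m, Fails μ (Cx G z) m) with hF
  set Bad := (Fintype.piFinset (fun _ : Fin (r * T) => X)).filter
      (fun z => Function.Injective z ∧ ∃ m, Fails lam (Cx G z) m) with hBad
  -- the bad cross pairs
  set Cr : Fin (r * T) × Fin (r * T) → Finset (Fin (r * T) → α) := fun gg =>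
    (Fintype.piFinset (fun _ : Fin (r * T) => X)).filter fun z =>
      gg.1 ≠ gg.2 ∧ ∃ j j', j < j' ∧ z gg.1 ∈ V j ∧ z gg.2 ∈ V j' ∧ G {z gg.1, z gg.2} with hCr
  have hcov : (Fintype.piFinset F).image jn ⊆ Bad ∪
      (univ : Finset (Fin (r * T) × Fin (r * T))).biUnion Cr := by
    intro z hz
    obtain ⟨x, hx, rfl⟩ := mem_image.1 hz
    rw [Fintype.mem_piFinset] at hx
    have hxV : ∀ j i, x j i ∈ V j := fun j i =>
      Fintype.mem_piFinset.1 (mem_filter.1 (hx j)).1 i
    have hxX : jn x ∈ Fintype.piFinset (fun _ : Fin (r * T) => X) := by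
      rw [Fintype.mem_piFinset]
      intro g
      obtain ⟨j, i, rfl⟩ := exists_pl g
      rw [jn_pl]
      exact hVX j (hxV j i)
    rw [mem_union]
    by_cases h : ∀ j j', j ≠ j' → ∀ i i', ¬ G {x j i, x j' i'}
    · left
      refine mem_filter.2 ⟨hxX, ?_, ?_⟩
      · intro a b hab
        obtain ⟨j, i, rfl⟩ := exists_pl a
        obtain ⟨j', i', rfl⟩ := exists_pl b
        rw [jn_pl, jn_pl] at hab
        have hjj : j = j' := by
          by_contra hne
          exact disjoint_left.1 (hdis j j' hne) (hxV j i) (hab ▸ hxV j' i')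
        subst hjj
        rw [(mem_filter.1 (hx j)).2.1 hab]
      · exact fails_joint hμ hr (fun j => (mem_filter.1 (hx j)).2.2) (cx_joint hG hr x h)
    · right
      push Not at h
      obtain ⟨j, j', hjj, i, i', hGx⟩ := h
      rw [mem_biUnion]
      rcases lt_or_gt_of_ne hjj with hlt | hlt
      · refine ⟨(pl j i, pl j' i'), mem_univ _, mem_filter.2 ⟨hxX, ?_, j, j', hlt, ?_, ?_, ?_⟩⟩
        · intro h
          exact hjj (pl_inj h).1
        · show jn x (pl j i) ∈ V j
          rw [jn_pl]; exact hxV j i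
        · show jn x (pl j' i') ∈ V j'
          rw [jn_pl]; exact hxV j' i'
        · show G {jn x (pl j i), jn x (pl j' i')}
          rw [jn_pl, jn_pl]; exact hGx
      · refine ⟨(pl j' i', pl j i), mem_univ _, mem_filter.2 ⟨hxX, ?_, j', j, hlt, ?_, ?_, ?_⟩⟩
        · intro h
          exact hjj (pl_inj h).1.symm
        · show jn x (pl j' i') ∈ V j'
          rw [jn_pl]; exact hxV j' i'
        · show jn x (pl j i) ∈ V j
          rw [jn_pl]; exact hxV j i
        · show G {jn x (pl j' i'), jn x (pl j i)}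
          rw [jn_pl, jn_pl, pair_comm]; exact hGx
  have hjn : Function.Injective (jn : (Fin r → Fin T → α) → _) := by
    intro x x' h
    funext j i
    have := congrFun h (pl j i)
    rwa [jn_pl, jn_pl] at this
  have hprod : (∏ j, (F j).card) ≤ Bad.card + ∑ gg, (Cr gg).card := by
    have h1 := (card_le_card hcov).trans (card_union_le _ _)
    rw [card_image_of_injective _ hjn, Fintype.card_piFinset] at h1
    exact h1.trans (Nat.add_le_add_left card_biUnion_le _)
  have hprodR : (∏ j, ((F j).card : ℝ)) ≤ Bad.card + ∑ gg, ((Cr gg).card : ℝ) := by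
    exact_mod_cast hprod
  have hlow : γ ^ r * n ^ (r * T) ≤ ∏ j, ((F j).card : ℝ) := by
    calc γ ^ r * n ^ (r * T) = ∏ _j : Fin r, (γ * n ^ T) := by
          rw [prod_const, card_univ, Fintype.card_fin, mul_pow, ← pow_mul, Nat.mul_comm T r]
      _ ≤ _ := prod_le_prod (fun j _ => by positivity) fun j _ => hcon j
  have hXn : (X.card : ℝ) ≤ r * n := by rw [hn]; exact_mod_cast hX
  have hXpos : 0 < X.card := lt_of_lt_of_le hV (card_le_card (hVX ⟨0, hr⟩))
  have hXr : (0 : ℝ) < X.card := by exact_mod_cast hXpos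
  have hbad' : (Bad.card : ℝ) ≤ γ ^ r / 2 * n ^ (r * T) := by
    refine hbad.trans ?_
    calc γ ^ r / (2 * (r : ℝ) ^ (r * T)) * (X.card : ℝ) ^ (r * T) ≤
          γ ^ r / (2 * (r : ℝ) ^ (r * T)) * (r * n) ^ (r * T) := by
          gcongr
      _ = γ ^ r / 2 * n ^ (r * T) := by
          rw [mul_pow]
          have : (r : ℝ) ^ (r * T) ≠ 0 := by positivity
          field_simp
  -- the number of good cross pairs in `X × X`
  set δ : ℝ := γ ^ r / (4 * ((r : ℝ) * T) ^ 2 * (r : ℝ) ^ 2 * (r : ℝ) ^ (r * T)) with hδ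
  have hδ0 : 0 < δ := by positivity
  have hY : (((Fintype.piFinset (fun _ : Fin 2 => X)).filter fun y =>
      ∃ j j', j < j' ∧ y 0 ∈ V j ∧ y 1 ∈ V j' ∧ G {y 0, y 1}).card : ℝ) ≤
      (r : ℝ) ^ 2 * (δ * n ^ 2) := by
    have h1 : ((Fintype.piFinset (fun _ : Fin 2 => X)).filter fun y =>
        ∃ j j', j < j' ∧ y 0 ∈ V j ∧ y 1 ∈ V j' ∧ G {y 0, y 1}) ⊆
        (univ : Finset (Fin r × Fin r)).biUnion (fun jj =>
          if jj.1 < jj.2 then ((V jj.1 ×ˢ V jj.2).filter fun u => G {u.1, u.2}).image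
            (fun u => (![u.1, u.2] : Fin 2 → α)) else ∅) := by
      intro y hy
      obtain ⟨-, j, j', hlt, h2, h3, h4⟩ := mem_filter.1 hy
      rw [mem_biUnion]
      refine ⟨(j, j'), mem_univ _, ?_⟩
      simp only [hlt, if_true]
      refine mem_image.2 ⟨(y 0, y 1), mem_filter.2 ⟨mem_product.2 ⟨h2, h3⟩, h4⟩, ?_⟩
      funext i
      fin_cases i <;> rfl
    have h2 := (card_le_card h1).trans card_biUnion_le
    have h3 : ∀ jj : Fin r × Fin r, (((if jj.1 < jj.2 then
        ((V jj.1 ×ˢ V jj.2).filter fun u => G {u.1, u.2}).image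
            (fun u => (![u.1, u.2] : Fin 2 → α)) else ∅ : Finset (Fin 2 → α))).card : ℝ) ≤
        δ * n ^ 2 := by
      intro jj
      split_ifs with hlt
      · refine le_trans ?_ (hg jj.1 jj.2 hlt).le
        exact_mod_cast card_image_le
      · rw [card_empty, Nat.cast_zero]
        positivity
    calc (((Fintype.piFinset (fun _ : Fin 2 => X)).filter fun y =>
          ∃ j j', j < j' ∧ y 0 ∈ V j ∧ y 1 ∈ V j' ∧ G {y 0, y 1}).card : ℝ) ≤
          ∑ jj : Fin r × Fin r, (((if jj.1 < jj.2 then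
        ((V jj.1 ×ˢ V jj.2).filter fun u => G {u.1, u.2}).image
            (fun u => (![u.1, u.2] : Fin 2 → α)) else ∅ : Finset (Fin 2 → α))).card : ℝ) := by
          exact_mod_cast h2
      _ ≤ ∑ _jj : Fin r × Fin r, δ * n ^ 2 := sum_le_sum fun jj _ => h3 jj
      _ = (r : ℝ) ^ 2 * (δ * n ^ 2) := by
          rw [sum_const, card_univ, Fintype.card_prod, Fintype.card_fin, nsmul_eq_mul]
          push_cast
          ring
  have hCr1 : ∀ gg, ((Cr gg).card : ℝ) * (X.card : ℝ) ^ 2 ≤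
      (X.card : ℝ) ^ (r * T) * ((r : ℝ) ^ 2 * (δ * n ^ 2)) := by
    intro gg
    by_cases hne : gg.1 = gg.2
    · have : Cr gg = ∅ := by
        rw [hCr]
        apply filter_eq_empty_iff.2
        intro z _ h
        exact h.1 hne
      rw [this, card_empty, Nat.cast_zero, zero_mul]
      positivity
    · have hu : Function.Injective (![gg.1, gg.2] : Fin 2 → Fin (r * T)) := by
        intro a b hab
        fin_cases a <;> fin_cases b
        · rfl
        · exact absurd hab hne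
        · exact absurd hab.symm hne
        · rfl
      have h1 := card_pull X (![gg.1, gg.2] : Fin 2 → Fin (r * T)) hu
        (fun y => ∃ j j', j < j' ∧ y 0 ∈ V j ∧ y 1 ∈ V j' ∧ G {y 0, y 1})
      have h2 : (Cr gg).card ≤ ((Fintype.piFinset (fun _ : Fin (r * T) => X)).filter (fun z =>
          (fun y : Fin 2 → α => ∃ j j', j < j' ∧ y 0 ∈ V j ∧ y 1 ∈ V j' ∧ G {y 0, y 1})
            (fun i => z ((![gg.1, gg.2] : Fin 2 → Fin (r * T)) i)))).card := by
        apply card_le_card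
        intro z hz
        obtain ⟨h3, -, h4⟩ := mem_filter.1 hz
        exact mem_filter.2 ⟨h3, h4⟩
      have h3 : ((Fintype.piFinset (fun _ : Fin (r * T) => X)).filter (fun z =>
          (fun y : Fin 2 → α => ∃ j j', j < j' ∧ y 0 ∈ V j ∧ y 1 ∈ V j' ∧ G {y 0, y 1})
            (fun i => z ((![gg.1, gg.2] : Fin 2 → Fin (r * T)) i)))).card * X.card ^ 2 =
          X.card ^ (r * T) * ((Fintype.piFinset (fun _ : Fin 2 => X)).filter fun y =>
            ∃ j j', j < j' ∧ y 0 ∈ V j ∧ y 1 ∈ V j' ∧ G {y 0, y 1}).card := by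
        convert h1
      have h5 : (Cr gg).card * X.card ^ 2 ≤
          X.card ^ (r * T) * ((Fintype.piFinset (fun _ : Fin 2 => X)).filter fun y =>
            ∃ j j', j < j' ∧ y 0 ∈ V j ∧ y 1 ∈ V j' ∧ G {y 0, y 1}).card :=
        (Nat.mul_le_mul_right _ h2).trans h3.le
      have h6 : ((Cr gg).card : ℝ) * (X.card : ℝ) ^ 2 ≤
          (X.card : ℝ) ^ (r * T) * (((Fintype.piFinset (fun _ : Fin 2 => X)).filter fun y =>
            ∃ j j', j < j' ∧ y 0 ∈ V j ∧ y 1 ∈ V j' ∧ G {y 0, y 1}).card : ℝ) := by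
        exact_mod_cast h5
      exact h6.trans (mul_le_mul_of_nonneg_left hY (by positivity))
  have hCr2 : ∀ gg, ((Cr gg).card : ℝ) ≤ (r * n) ^ (r * T) * ((r : ℝ) ^ 2 * δ) := by
    intro gg
    have h1 := hCr1 gg
    have hnX : n ≤ X.card := by
      rw [hn]; exact_mod_cast card_le_card (hVX ⟨0, hr⟩)
    have h2 : ((Cr gg).card : ℝ) * (X.card : ℝ) ^ 2 ≤
        ((r * n) ^ (r * T) * ((r : ℝ) ^ 2 * δ)) * (X.card : ℝ) ^ 2 := by
      refine h1.trans ?_
      calc (X.card : ℝ) ^ (r * T) * ((r : ℝ) ^ 2 * (δ * n ^ 2)) =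
            (X.card : ℝ) ^ (r * T) * ((r : ℝ) ^ 2 * δ) * n ^ 2 := by ring
        _ ≤ (r * n) ^ (r * T) * ((r : ℝ) ^ 2 * δ) * (X.card : ℝ) ^ 2 := by
            gcongr
    exact le_of_mul_le_mul_right h2 (by positivity)
  have hsum : ∑ gg, ((Cr gg).card : ℝ) ≤ (r * T) ^ 2 * ((r * n) ^ (r * T) * ((r : ℝ) ^ 2 * δ)) := by
    calc ∑ gg, ((Cr gg).card : ℝ) ≤ ∑ _gg : Fin (r * T) × Fin (r * T),
          (r * n) ^ (r * T) * ((r : ℝ) ^ 2 * δ) := sum_le_sum fun gg _ => hCr2 gg
      _ = _ := by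
          rw [sum_const, card_univ, Fintype.card_prod, Fintype.card_fin, nsmul_eq_mul]
          push_cast
          ring
  have e1 : ((r : ℝ) * T) ^ 2 * ((r * n) ^ (r * T) * ((r : ℝ) ^ 2 * δ)) =
      γ ^ r / 4 * n ^ (r * T) := by
    rw [hδ, mul_pow (r : ℝ) n]
    have h1 : (r : ℝ) ^ (r * T) ≠ 0 := by positivity
    have h2 : (r : ℝ) ≠ 0 := hr0.ne'
    have h3 : (T : ℝ) ≠ 0 := hT0.ne'
    field_simp
  rw [e1] at hsum
  have h9 : 0 < γ ^ r * n ^ (r * T) := by positivity
  linarith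

end Pool.Agent.V11161.GV
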