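import Mathlib
import Pool.Agent.Y827.GS.FamF

set_option autoImplicit false

/-!
# Conversions between finite sets of forms and of numbers
-/

namespace Pool.Agent.V11161.GV

open Finset
open Pool.Agent.Y827.GS (Adf cntN)

/-- the form `n + v` -/
def lf (v : ℕ) : ℤ × ℤ := (1, v)

/-- the form `w - n` -/
def rf (w : ℕ) : ℤ × ℤ := (-1, w)

theorem lf_inj : Function.Injective lf := by
  intro a b h
  have : ((a : ℕ) : ℤ) = b := congrArg Prod.snd h
  exact_mod_cast this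

theorem rf_inj : Function.Injective rf := by
  intro a b h
  have : ((a : ℕ) : ℤ) = b := congrArg Prod.snd h
  exact_mod_cast this

open Classical in
theorem conv_tup {k : ℕ} (f : ℕ → ℤ × ℤ) (V : Finset ℕ) (X : ℝ) (N : ℕ) :
    (((Fintype.piFinset (fun _ : Fin (k + 1) => V.image f)).filter
      (fun y => Function.Injective y ∧ X ≤ (cntN (univ.image y) N : ℝ))).card : ℝ) ≤
    ({t : Fin (k + 1) → ℕ | (∀ i, t i ∈ V) ∧ Function.Injective t ∧
      X ≤ ({n : ℕ | n ≤ N ∧ ∀ i, ((f (t i)).1 * (n : ℤ) + (f (t i)).2).toNat.Prime}.ncard : ℝ)}.ncard :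
        ℝ) := by
  have h : (Fintype.piFinset (fun _ : Fin (k + 1) => V.image f)).filter
      (fun y => Function.Injective y ∧ X ≤ (cntN (univ.image y) N : ℝ)) ⊆
      ((Fintype.piFinset (fun _ : Fin (k + 1) => V)).filter (fun t => Function.Injective t ∧
        X ≤ (cntN (univ.image fun i => f (t i)) N : ℝ))).image (fun t => fun i => f (t i)) := by
    intro y hy
    obtain ⟨h1, h2, h3⟩ := mem_filter.1 hy
    rw [Fintype.mem_piFinset] at h1
    choose t ht using fun i => mem_image.1 (h1 i)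
    have hy' : (fun i => f (t i)) = y := funext fun i => (ht i).2
    rw [mem_image]
    refine ⟨t, mem_filter.2 ⟨Fintype.mem_piFinset.2 fun i => (ht i).1, ?_, ?_⟩, hy'⟩
    · intro i j hij
      apply h2
      rw [← hy']
      simp only [hij]
    · rw [hy']
      exact h3
  rw [Nat.cast_le]
  refine (card_le_card h).trans (card_image_le.trans ?_)
  rw [← Set.ncard_coe_finset]
  refine Set.ncard_le_ncard ?_ ((Fintype.piFinset fun _ : Fin (k + 1) => V).finite_toSet.subset ?_)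
  · intro t ht
    simp only [coe_filter, Fintype.mem_piFinset] at ht
    obtain ⟨h2, h3, h4⟩ := ht
    refine ⟨h2, h3, h4.trans ?_⟩
    unfold cntN
    rw [Nat.cast_le, ← Set.ncard_coe_finset]
    refine Set.ncard_le_ncard ?_ ((Set.finite_Iic N).subset fun n hn => hn.1)
    intro n hn
    obtain ⟨h5, h6⟩ := mem_filter.1 (mem_coe.1 hn)
    exact ⟨(mem_Icc.1 h5).2, fun i => h6 _ (mem_image_of_mem _ (mem_univ i))⟩
  · rintro t ⟨h2, -⟩
    exact mem_coe.2 (Fintype.mem_piFinset.2 h2)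

open Classical in
theorem conv_pair (f g : ℕ → ℤ × ℤ) (V W : Finset ℕ) (X : ℝ) (N : ℕ) (R : ℕ → ℕ → ℕ)
    (hR : ∀ v ∈ V, ∀ w ∈ W, cntN {f v, g w} N ≤ R v w) :
    ((((V.image f) ×ˢ (W.image g)).filter fun u => X ≤ (cntN {u.1, u.2} N : ℝ)).card : ℝ) ≤
      ({x : ℕ × ℕ | x.1 ∈ V ∧ x.2 ∈ W ∧ X ≤ (R x.1 x.2 : ℝ)}.ncard : ℝ) := by
  have h : ((V.image f) ×ˢ (W.image g)).filter (fun u => X ≤ (cntN {u.1, u.2} N : ℝ)) ⊆
      ((V ×ˢ W).filter fun u => X ≤ (cntN {f u.1, g u.2} N : ℝ)).image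
        fun u => (f u.1, g u.2) := by
    rintro ⟨a, b⟩ hu
    obtain ⟨h1, h2⟩ := mem_filter.1 hu
    obtain ⟨h3, h4⟩ := mem_product.1 h1
    obtain ⟨v, hv, rfl⟩ := mem_image.1 h3
    obtain ⟨w, hw, rfl⟩ := mem_image.1 h4
    exact mem_image.2 ⟨(v, w), mem_filter.2 ⟨mem_product.2 ⟨hv, hw⟩, h2⟩, rfl⟩
  rw [Nat.cast_le]
  refine (card_le_card h).trans (card_image_le.trans ?_)
  rw [← Set.ncard_coe_finset]
  refine Set.ncard_le_ncard ?_ ((V ×ˢ W).finite_toSet.subset ?_)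
  · intro x hx
    simp only [coe_filter, mem_product] at hx
    exact ⟨hx.1.1, hx.1.2, hx.2.trans (by exact_mod_cast hR _ hx.1.1 _ hx.1.2)⟩
  · rintro x ⟨h2, h3, -⟩
    exact mem_coe.2 (mem_product.2 ⟨h2, h3⟩)

theorem toNat_eq {x : ℤ} (h : x.toNat.Prime) : ((x.toNat : ℕ) : ℤ) = x := by
  apply Int.toNat_of_nonneg
  by_contra hcon
  rw [Int.toNat_of_nonpos (by omega)] at h
  exact Nat.not_prime_zero h

/-- cross pairs of the forms `n + v` and `w - n` -/
theorem cnt_lr (v w N : ℕ) : cntN {lf v, rf w} N ≤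
    {p : ℕ | p.Prime ∧ ∃ q : ℕ, q.Prime ∧ p + q = v + w}.ncard := by
  unfold cntN
  rw [← Set.ncard_coe_finset]
  refine Set.ncard_le_ncard_of_injOn (fun n : ℕ => n + v) ?_ ?_ ?_
  · intro n hn
    obtain ⟨-, h4⟩ := mem_filter.1 (mem_coe.1 hn)
    have h5 := h4 (lf v) (mem_insert_self _ _)
    have h6 := h4 (rf w) (mem_insert_of_mem (mem_singleton_self _))
    have h5' : (1 * (n : ℤ) + (v : ℤ)).toNat.Prime := h5
    have h6' : (-1 * (n : ℤ) + (w : ℤ)).toNat.Prime := h6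
    have h7 := toNat_eq h6'
    have e5 : (1 * (n : ℤ) + (v : ℤ)).toNat = n + v := by omega
    rw [e5] at h5'
    refine ⟨h5', _, h6', ?_⟩
    show n + v + (-1 * (n : ℤ) + (w : ℤ)).toNat = v + w
    omega
  · intro n _ n' _ hnn
    have h7 : n + v = n' + v := hnn
    omega
  · exact (Set.finite_Iic (v + w)).subset (by
      rintro p ⟨-, q, -, hq⟩
      show p ≤ _
      omega)

theorem adf_lf {N v : ℕ} (hv : v ≤ N) : Adf 1 N (lf v) := by
  refine ⟨one_ne_zero, by simp [lf], ?_, isCoprime_one_left, fun t h1 h2 => ?_⟩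
  · show |((v : ℕ) : ℤ)| ≤ N
    rw [abs_of_nonneg (Nat.cast_nonneg _)]
    exact_mod_cast hv
  · have h3 : (0 : ℝ) ≤ v := Nat.cast_nonneg _
    have h4 : (0 : ℝ) ≤ N := Nat.cast_nonneg _
    show (N : ℝ) / 24 ≤ ((1 : ℤ) : ℝ) * t + ((v : ℤ) : ℝ)
    push_cast
    linarith

theorem adf_rf {N w : ℕ} (hw : 13 * N ≤ 24 * w) (hw2 : w ≤ N) : Adf 1 N (rf w) := by
  refine ⟨by simp [rf], by simp [rf], ?_, isCoprime_one_left.neg_left, fun t h1 h2 => ?_⟩
  · show |((w : ℕ) : ℤ)| ≤ N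
    rw [abs_of_nonneg (Nat.cast_nonneg _)]
    exact_mod_cast hw2
  · have h3 : (13 : ℝ) * N ≤ 24 * w := by exact_mod_cast hw
    show (N : ℝ) / 24 ≤ ((-1 : ℤ) : ℝ) * t + ((w : ℤ) : ℝ)
    push_cast
    linarith

end Pool.Agent.V11161.GV
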