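import Mathlib
import Pool.Agent.W25.QL.Count
import Pool.Agent.H461R2.PD.Comb

set_option autoImplicit false

/-!
# Three sets of linear forms: counting in complexes
-/

namespace Pool.Agent.V11161.GV

open Finset
open Pool.Agent.W25.QL (Fails count_pow)

/-- the proportion -/
noncomputable def d3 (k : ℕ) : ℝ := if k ≤ 4 then 1 else (5 / 6) ^ k

theorem d3_le (k : ℕ) : d3 k ≤ 1 := by
  unfold d3
  split_ifs
  · norm_num
  · exact pow_le_one₀ (by norm_num) (by norm_num)

/-- the indicator weights of a set `t` of groups -/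
theorem not_fails_ind3 {μ : ℝ} {T : ℕ} {C : Finset (Finset (Fin T))}
    (hC : ∀ S ∈ C, ∀ S', S' ⊆ S → S' ∈ C)
    (hm : ∀ m, ¬ Fails μ C m) (t : Finset (Fin T)) (ht : t.Nonempty) :
    ∃ S ∈ C, S ⊆ t ∧ (t.card : ℝ) ≤ μ * S.card := by
  by_contra hcon
  push Not at hcon
  apply hm fun g => if g ∈ t then 1 else 0
  have hsum : ∑ g : Fin T, (if g ∈ t then 1 else 0) = t.card := by
    rw [Finset.sum_ite_mem, Finset.univ_inter, Finset.sum_const, smul_eq_mul, mul_one]
  refine ⟨?_, fun S hS => ?_⟩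
  · rw [hsum]
    exact ht.card_pos
  · have h1 := hcon (S ∩ t) (hC S hS _ inter_subset_left) inter_subset_right
    have h2 : ∑ g ∈ S, (if g ∈ t then 1 else 0) = (S ∩ t).card := by
      rw [Finset.sum_ite_mem, Finset.sum_const, smul_eq_mul, mul_one]
    rw [hsum, h2]
    exact h1

open Classical in
theorem count_small (k : ℕ) (hk : k ≤ 4) (ε : ℝ) (hε : 0 < ε) :
    ∃ T : ℕ, 1 ≤ T ∧ ∀ C : Finset (Finset (Fin T)),
      (∀ S ∈ C, ∀ S', S' ⊆ S → S' ∈ C) → (∀ m, ¬ Fails (6 / 5) C m) →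
      (1 - ε) * (T : ℝ) ^ (k + 1) ≤ ((univ.filter (fun u : Fin (k + 1) → Fin T =>
        Function.Injective u ∧ univ.image u ∈ C)).card : ℝ) := by
  obtain ⟨T, hT⟩ := exists_nat_gt (max (((k + 1 : ℕ) : ℝ) ^ 2 / ε) (k + 1))
  have hTε : ((k + 1 : ℕ) : ℝ) ^ 2 / ε < T := (le_max_left _ _).trans_lt hT
  have hTk : ((k : ℝ) + 1) < T := (le_max_right _ _).trans_lt hT
  have hT0 : (0 : ℝ) < T := lt_trans (by positivity) hTk
  have hTk' : k + 1 < T := by exact_mod_cast hTk
  refine ⟨T, by omega, fun C hC hm => ?_⟩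
  have hall : ∀ u : Fin (k + 1) → Fin T, Function.Injective u → univ.image u ∈ C := by
    intro u hu
    obtain ⟨S, hS, hSt, hc⟩ := not_fails_ind3 hC hm (univ.image u) (univ_nonempty.image _)
    have h1 : (univ.image u).card = k + 1 := by
      rw [card_image_of_injective _ hu, card_univ, Fintype.card_fin]
    rw [h1] at hc
    have h2 : S = univ.image u := by
      apply eq_of_subset_of_card_le hSt
      rw [h1]
      by_contra hlt
      have h3 : S.card ≤ k := by omega
      have h4 : (S.card : ℝ) ≤ k := by exact_mod_cast h3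
      have h5 : (k : ℝ) ≤ 4 := by exact_mod_cast hk
      push_cast at hc
      linarith
    rwa [← h2]
  have hnon := Pool.Agent.H461R2.PD.card_noninj (Fin T) (k + 1) (by rw [Fintype.card_fin]; omega)
    (by rw [Fintype.card_fin]; omega)
  rw [Fintype.card_fin] at hnon
  have hcov : (univ : Finset (Fin (k + 1) → Fin T)) ⊆
      (univ.filter (fun u : Fin (k + 1) → Fin T => Function.Injective u ∧ univ.image u ∈ C)) ∪
        (univ.filter fun y : Fin (k + 1) → Fin T => ¬ Function.Injective y) := by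
    intro u _
    rw [mem_union, mem_filter, mem_filter]
    by_cases h0 : Function.Injective u
    · left
      exact ⟨mem_univ _, h0, hall u h0⟩
    · right
      exact ⟨mem_univ _, h0⟩
  have hc := (card_le_card hcov).trans (card_union_le _ _)
  rw [card_univ, Fintype.card_fun, Fintype.card_fin, Fintype.card_fin] at hc
  have hcR : (T : ℝ) ^ (k + 1) ≤ ((univ.filter (fun u : Fin (k + 1) → Fin T =>
      Function.Injective u ∧ univ.image u ∈ C)).card : ℝ) +
      ((univ.filter fun y : Fin (k + 1) → Fin T => ¬ Function.Injective y).card : ℝ) := by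
    exact_mod_cast hc
  have hnε : ((k + 1 : ℕ) : ℝ) ^ 2 / T ≤ ε := by
    rw [div_lt_iff₀ hε] at hTε
    rw [div_le_iff₀ hT0]
    linarith
  have h5 : ((k + 1 : ℕ) : ℝ) ^ 2 / T * (T : ℝ) ^ (k + 1) ≤ ε * (T : ℝ) ^ (k + 1) := by gcongr
  linarith

open Classical in
theorem hcount3 (k : ℕ) (ε : ℝ) (hε : 0 < ε) :
    ∃ T : ℕ, 1 ≤ T ∧ ∀ C : Finset (Finset (Fin T)),
      (∀ S ∈ C, ∀ S', S' ⊆ S → S' ∈ C) → (∀ m, ¬ Fails (6 / 5) C m) →
      (d3 k - ε) * (T : ℝ) ^ (k + 1) ≤ ((univ.filter (fun u : Fin (k + 1) → Fin T =>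
        Function.Injective u ∧ univ.image u ∈ C)).card : ℝ) := by
  by_cases hk : k ≤ 4
  · unfold d3
    rw [if_pos hk]
    exact count_small k hk ε hε
  · unfold d3
    rw [if_neg hk]
    have h := count_pow (lam := 6 / 5) (by norm_num) k ε hε
    have e : (1 / (6 / 5) : ℝ) = 5 / 6 := by norm_num
    rw [e] at h
    exact h

end Pool.Agent.V11161.GV
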