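import Mathlib
import Pool.Agent.V11161.GV.R
import Pool.Agent.V11161.GV.Count3
import Pool.Agent.Y827.RO.NarF

set_option autoImplicit false

/-!
# Several sets of linear forms: the main theorem
-/

namespace Pool.Agent.V11161.GV

open Finset Filter Topology
open Pool.Agent.W25.QL (Fails QProp bad_rare)
open Pool.Agent.Y827.GS (Adf cntN cntN_anti)
open Pool.Agent.Y827.RO (lamRD log_ge_one)

open Classical in
/-- **several sets of linear forms** -/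
theorem mainR {r : ℕ} (hr : 0 < r) (μ : ℝ) (hμ : (18 / 5 : ℝ) = r * μ) (k : ℕ) (d : ℝ)
    (hd1 : d ≤ 1) (hcount : ∀ ε : ℝ, 0 < ε → ∃ T : ℕ, 1 ≤ T ∧ ∀ C : Finset (Finset (Fin T)),
      (∀ S ∈ C, ∀ S', S' ⊆ S → S' ∈ C) → (∀ m, ¬ Fails μ C m) →
      (d - ε) * (T : ℝ) ^ (k + 1) ≤ ((univ.filter (fun u : Fin (k + 1) → Fin T =>
        Function.Injective u ∧ univ.image u ∈ C)).card : ℝ)) (ε : ℝ) (hε : 0 < ε) :
    ∃ z n₀ C : ℕ, ∃ δ : ℝ, 0 < δ ∧ ∀ A : ℕ, ∀ᶠ N : ℕ in atTop, ∀ V : Fin r → Finset (ℤ × ℤ),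
      (∀ j, (V j).card = (V ⟨0, hr⟩).card) → n₀ ≤ (V ⟨0, hr⟩).card →
      (∀ j j', j ≠ j' → Disjoint (V j) (V j')) → (∀ j, ∀ f ∈ V j, Adf A N f) →
      (∀ p : ℕ, p.Prime → p ≤ z → ∃ t : ℤ, ∀ j, ∀ f ∈ V j, ¬ ((p : ℤ) ∣ f.1 * t + f.2)) →
      (∃ j j', j < j' ∧ δ * ((V ⟨0, hr⟩).card : ℝ) ^ 2 ≤ (((V j ×ˢ V j').filter fun u =>
        (N : ℝ) / (Real.log N) ^ C ≤ (cntN {u.1, u.2} N : ℝ)).card : ℝ)) ∨
      (∃ j, (d - ε) * ((V j).card : ℝ) ^ (k + 1) ≤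
        (((Fintype.piFinset fun _ : Fin (k + 1) => V j).filter fun t => Function.Injective t ∧
          (N : ℝ) / (Real.log N) ^ C ≤ (cntN (univ.image t) N : ℝ)).card : ℝ)) := by
  rcases le_or_gt d ε with hle | hlt
  · refine ⟨0, 0, 0, 1, one_pos, fun A => Eventually.of_forall fun N V _ _ _ _ _ =>
      Or.inr ⟨⟨0, hr⟩, ?_⟩⟩
    have : (d - ε) * ((V ⟨0, hr⟩).card : ℝ) ^ (k + 1) ≤ 0 :=
      mul_nonpos_of_nonpos_of_nonneg (by linarith) (by positivity)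
    exact this.trans (Nat.cast_nonneg _)
  have hr0 : (0 : ℝ) < r := by exact_mod_cast hr
  choose Kf hKf1 hKf using lamRD
  obtain ⟨T, hT1, hTc⟩ := hcount (ε / 4) (by linarith)
  have hTr : (0 : ℝ) < T := by exact_mod_cast hT1
  obtain ⟨M, hM⟩ := bad_rare (lam := 18 / 5) (by norm_num) (r * T) Kf
    ((ε / 4) ^ r / (2 * (r : ℝ) ^ (r * T))) (by positivity)
  obtain ⟨n₀, hn₀⟩ := hM Unit
  set C : ℕ := ∑ T' ∈ range (M + 1), (T' * Kf T' + 2) with hCdef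
  refine ⟨∑ T' ∈ range (M + 1), T' * Kf T', n₀ + (⌈4 * (T : ℝ) ^ 2 / ε⌉₊ + 1), C,
    (ε / 4) ^ r / (4 * ((r : ℝ) * T) ^ 2 * (r : ℝ) ^ 2 * (r : ℝ) ^ (r * T)), by positivity, ?_⟩
  intro A
  have hev : ∀ᶠ N : ℕ in atTop, ∀ T' : Fin (M + 1), 1 ≤ (T' : ℕ) →
      ∀ H : Fin (T' : ℕ) → Fin (Kf T') → ℤ × ℤ,
      Function.Injective (fun z : Fin (T' : ℕ) × Fin (Kf T') => H z.1 z.2) →
      (∀ g i, Adf A N (H g i)) →
      (∀ p : ℕ, p.Prime → p ≤ T' * Kf T' → ∃ r : ℤ, ∀ g i,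
        ¬ (p : ℤ) ∣ (H g i).1 * r + (H g i).2) →
      ∃ (S : Finset (Fin (T' : ℕ))) (cc : Fin (T' : ℕ) → Fin (Kf T')),
        ((T' : ℕ) : ℝ) ≤ (18 / 5) * (S.card : ℝ) ∧
        (N : ℝ) / (Real.log N) ^ (T' * Kf T' + 2) ≤
          (cntN (S.image (fun g => H g (cc g))) N : ℝ) := by
    rw [eventually_all]
    intro T'
    by_cases h0 : 1 ≤ (T' : ℕ)
    swap
    · exact Eventually.of_forall fun x h => absurd h h0
    filter_upwards [hKf T' h0 A] with N hN _ H hinj hAd hadm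
    exact hN H hinj hAd hadm
  filter_upwards [hev, eventually_ge_atTop 3] with N hN hN3
  intro V hcard hVn hdis hAd hloc
  have hL1 : (1 : ℝ) ≤ Real.log N := log_ge_one hN3
  by_contra hcon
  push Not at hcon
  obtain ⟨hg, hv⟩ := hcon
  set G : Finset (ℤ × ℤ) → Prop := fun F => (N : ℝ) / (Real.log N) ^ C ≤ (cntN F N : ℝ) with hGd
  have hG : ∀ F F' : Finset (ℤ × ℤ), F' ⊆ F → G F → G F' := fun F F' hF h =>
    h.trans (by exact_mod_cast cntN_anti hF N)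
  set X : Finset (ℤ × ℤ) := univ.biUnion V with hXd
  have hVX : ∀ j, V j ⊆ X := fun j => subset_biUnion_of_mem V (mem_univ j)
  have hXle : X.card ≤ r * (V ⟨0, hr⟩).card := by
    refine card_biUnion_le.trans (le_of_eq ?_)
    rw [sum_congr rfl fun j _ => hcard j, sum_const, card_univ, Fintype.card_fin, smul_eq_mul]
  have key := hn₀ (ℤ × ℤ) X (fun _ => ()) G (by
      have := card_le_card (hVX ⟨0, hr⟩)
      omega) hG (by
      intro T' hT'1 hT'M H hHV hHinj _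
      have hmem : ∀ g i, ∃ j, H g i ∈ V j := by
        intro g i
        obtain ⟨j, -, hj⟩ := mem_biUnion.1 (hHV g i)
        exact ⟨j, hj⟩
      obtain ⟨S, cc, hS, hcc⟩ := hN ⟨T', by omega⟩ hT'1 H hHinj (fun g i => by
          obtain ⟨j, hj⟩ := hmem g i
          exact hAd j _ hj) (by
          intro p hp hpT
          obtain ⟨t, ht⟩ := hloc p hp (hpT.trans
            (Finset.single_le_sum (f := fun T' => T' * Kf T') (fun _ _ => Nat.zero_le _)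
              (mem_range.2 (by omega))))
          refine ⟨t, fun g i => ?_⟩
          obtain ⟨j, hj⟩ := hmem g i
          exact ht j _ hj)
      refine ⟨S, cc, hS, le_trans ?_ hcc⟩
      apply div_le_div_of_nonneg_left (Nat.cast_nonneg _) (by positivity)
      apply pow_le_pow_right₀ hL1
      exact Finset.single_le_sum (f := fun T' => T' * Kf T' + 2) (fun _ _ => Nat.zero_le _)
        (mem_range.2 (by omega : T' < M + 1)))
  obtain ⟨j, h⟩ := dichR G hG hr hμ V X hXle hVX hdis hcard (by omega) T hT1 (ε / 4)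
    (by linarith) key (fun j j' hjj => hg j j' hjj)
  have h1 := count_of_rare (lam := μ) k d ε hε hlt hd1 T hT1 hTc (V j) G hG
    (by rw [hcard j]; omega) h.le
  exact absurd h1 (not_le.2 (hv j))

end Pool.Agent.V11161.GV
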