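import Mathlib
import Pool.Agent.V11161.GV.MainR

set_option autoImplicit false

/-!
# Two sets of linear forms
-/

namespace Pool.Agent.V11161.GV

open Finset Filter Topology
open Pool.Agent.W25.QL (Fails)
open Pool.Agent.Y827.GS (Adf cntN cntN_anti)

/-- two sets as a family -/
def fam2 (V W : Finset (ℤ × ℤ)) (j : Fin 2) : Finset (ℤ × ℤ) := if j = 0 then V else W

theorem fam2_zero (V W : Finset (ℤ × ℤ)) : fam2 V W 0 = V := if_pos rfl

theorem fam2_one (V W : Finset (ℤ × ℤ)) : fam2 V W 1 = W := if_neg (by decide)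

theorem fin2 (j : Fin 2) : j = 0 ∨ j = 1 := by
  fin_cases j
  · exact Or.inl rfl
  · exact Or.inr rfl

open Classical in
theorem main_two (k : ℕ) (d : ℝ)
    (hd1 : d ≤ 1) (hcount : ∀ ε : ℝ, 0 < ε → ∃ T : ℕ, 1 ≤ T ∧ ∀ C : Finset (Finset (Fin T)),
      (∀ S ∈ C, ∀ S', S' ⊆ S → S' ∈ C) → (∀ m, ¬ Fails (9 / 5) C m) →
      (d - ε) * (T : ℝ) ^ (k + 1) ≤ ((univ.filter (fun u : Fin (k + 1) → Fin T =>
        Function.Injective u ∧ univ.image u ∈ C)).card : ℝ)) (ε : ℝ) (hε : 0 < ε) :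
    ∃ z n₀ C : ℕ, ∃ δ : ℝ, 0 < δ ∧ ∀ A : ℕ, ∀ᶠ N : ℕ in atTop, ∀ V W : Finset (ℤ × ℤ),
      V.card = W.card → n₀ ≤ V.card → Disjoint V W →
      (∀ f ∈ V, Adf A N f) → (∀ f ∈ W, Adf A N f) →
      (∀ p : ℕ, p.Prime → p ≤ z → ∃ t : ℤ, (∀ f ∈ V, ¬ ((p : ℤ) ∣ f.1 * t + f.2)) ∧
        ∀ f ∈ W, ¬ ((p : ℤ) ∣ f.1 * t + f.2)) →
      (δ * (V.card : ℝ) ^ 2 ≤ (((V ×ˢ W).filter fun u =>
        (N : ℝ) / (Real.log N) ^ C ≤ (cntN {u.1, u.2} N : ℝ)).card : ℝ)) ∨
      ((d - ε) * (V.card : ℝ) ^ (k + 1) ≤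
        (((Fintype.piFinset fun _ : Fin (k + 1) => V).filter fun t => Function.Injective t ∧
          (N : ℝ) / (Real.log N) ^ C ≤ (cntN (univ.image t) N : ℝ)).card : ℝ)) ∨
      ((d - ε) * (W.card : ℝ) ^ (k + 1) ≤
        (((Fintype.piFinset fun _ : Fin (k + 1) => W).filter fun t => Function.Injective t ∧
          (N : ℝ) / (Real.log N) ^ C ≤ (cntN (univ.image t) N : ℝ)).card : ℝ)) := by
  obtain ⟨z, n₀, C, δ, hδ, h⟩ := mainR (r := 2) (by norm_num) (9 / 5) (by norm_num) k d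
    hd1 hcount ε hε
  refine ⟨z, n₀, C, δ, hδ, fun A => ?_⟩
  filter_upwards [h A] with N hN
  intro V W hc hn hdisj hV hW hloc
  have h00 : (⟨0, by norm_num⟩ : Fin 2) = 0 := rfl
  have key := hN (fam2 V W) (by
      intro j
      rw [h00, fam2_zero]
      rcases fin2 j with rfl | rfl
      · rw [fam2_zero]
      · rw [fam2_one, hc]) (by rw [h00, fam2_zero]; exact hn) (by
      intro j j' hjj
      rcases fin2 j with rfl | rfl <;> rcases fin2 j' with rfl | rfl
      · exact absurd rfl hjj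
      · rw [fam2_zero, fam2_one]; exact hdisj
      · rw [fam2_zero, fam2_one]; exact hdisj.symm
      · exact absurd rfl hjj) (by
      intro j f hf
      rcases fin2 j with rfl | rfl
      · rw [fam2_zero] at hf; exact hV f hf
      · rw [fam2_one] at hf; exact hW f hf) (by
      intro p hp hpz
      obtain ⟨t, ht1, ht2⟩ := hloc p hp hpz
      refine ⟨t, fun j f hf => ?_⟩
      rcases fin2 j with rfl | rfl
      · rw [fam2_zero] at hf; exact ht1 f hf
      · rw [fam2_one] at hf; exact ht2 f hf)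
  rcases key with ⟨j, j', hjj, h2⟩ | ⟨j, h2⟩
  · left
    rcases fin2 j with rfl | rfl <;> rcases fin2 j' with rfl | rfl
    · exact absurd hjj (lt_irrefl _)
    · rw [h00, fam2_zero, fam2_one] at h2
      exact h2
    · exact absurd hjj (by decide)
    · exact absurd hjj (lt_irrefl _)
  · right
    rcases fin2 j with rfl | rfl
    · left
      rw [fam2_zero] at h2
      exact h2
    · right
      rw [fam2_one] at h2
      exact h2

/-- three sets as a family -/
def fam3 (U V W : Finset (ℤ × ℤ)) (j : Fin 3) : Finset (ℤ × ℤ) :=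
  if j = 0 then U else if j = 1 then V else W

theorem fam3_zero (U V W : Finset (ℤ × ℤ)) : fam3 U V W 0 = U := if_pos rfl

theorem fam3_one (U V W : Finset (ℤ × ℤ)) : fam3 U V W 1 = V := by
  unfold fam3
  rw [if_neg (by decide), if_pos rfl]

theorem fam3_two (U V W : Finset (ℤ × ℤ)) : fam3 U V W 2 = W := by
  unfold fam3
  rw [if_neg (by decide), if_neg (by decide)]

theorem fin3 (j : Fin 3) : j = 0 ∨ j = 1 ∨ j = 2 := by
  fin_cases j
  · exact Or.inl rfl
  · exact Or.inr (Or.inl rfl)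
  · exact Or.inr (Or.inr rfl)

open Classical in
theorem main_three (k : ℕ) (ε : ℝ) (hε : 0 < ε) :
    ∃ z n₀ C : ℕ, ∃ δ : ℝ, 0 < δ ∧ ∀ A : ℕ, ∀ᶠ N : ℕ in atTop, ∀ U V W : Finset (ℤ × ℤ),
      V.card = U.card → W.card = U.card → n₀ ≤ U.card →
      Disjoint U V → Disjoint U W → Disjoint V W →
      (∀ f ∈ U, Adf A N f) → (∀ f ∈ V, Adf A N f) → (∀ f ∈ W, Adf A N f) →
      (∀ p : ℕ, p.Prime → p ≤ z → ∃ t : ℤ, (∀ f ∈ U, ¬ ((p : ℤ) ∣ f.1 * t + f.2)) ∧
        (∀ f ∈ V, ¬ ((p : ℤ) ∣ f.1 * t + f.2)) ∧ ∀ f ∈ W, ¬ ((p : ℤ) ∣ f.1 * t + f.2)) →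
      (δ * (U.card : ℝ) ^ 2 ≤ (((U ×ˢ V).filter fun u =>
        (N : ℝ) / (Real.log N) ^ C ≤ (cntN {u.1, u.2} N : ℝ)).card : ℝ)) ∨
      (δ * (U.card : ℝ) ^ 2 ≤ (((U ×ˢ W).filter fun u =>
        (N : ℝ) / (Real.log N) ^ C ≤ (cntN {u.1, u.2} N : ℝ)).card : ℝ)) ∨
      (δ * (U.card : ℝ) ^ 2 ≤ (((V ×ˢ W).filter fun u =>
        (N : ℝ) / (Real.log N) ^ C ≤ (cntN {u.1, u.2} N : ℝ)).card : ℝ)) ∨
      ((d3 k - ε) * (U.card : ℝ) ^ (k + 1) ≤
        (((Fintype.piFinset fun _ : Fin (k + 1) => U).filter fun t => Function.Injective t ∧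
          (N : ℝ) / (Real.log N) ^ C ≤ (cntN (univ.image t) N : ℝ)).card : ℝ)) ∨
      ((d3 k - ε) * (V.card : ℝ) ^ (k + 1) ≤
        (((Fintype.piFinset fun _ : Fin (k + 1) => V).filter fun t => Function.Injective t ∧
          (N : ℝ) / (Real.log N) ^ C ≤ (cntN (univ.image t) N : ℝ)).card : ℝ)) ∨
      ((d3 k - ε) * (W.card : ℝ) ^ (k + 1) ≤
        (((Fintype.piFinset fun _ : Fin (k + 1) => W).filter fun t => Function.Injective t ∧
          (N : ℝ) / (Real.log N) ^ C ≤ (cntN (univ.image t) N : ℝ)).card : ℝ)) := by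
  obtain ⟨z, n₀, C, δ, hδ, h⟩ := mainR (r := 3) (by norm_num) (6 / 5) (by norm_num) k (d3 k)
    (d3_le k) (hcount3 k) ε hε
  refine ⟨z, n₀, C, δ, hδ, fun A => ?_⟩
  filter_upwards [h A] with N hN
  intro U V W hc1 hc2 hn hd1 hd2 hd3 hU hV hW hloc
  have h00 : (⟨0, by norm_num⟩ : Fin 3) = 0 := rfl
  have key := hN (fam3 U V W) (by
      intro j
      rw [h00, fam3_zero]
      rcases fin3 j with rfl | rfl | rfl
      · rw [fam3_zero]
      · rw [fam3_one, hc1]
      · rw [fam3_two, hc2]) (by rw [h00, fam3_zero]; exact hn) (by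
      intro j j' hjj
      rcases fin3 j with rfl | rfl | rfl <;> rcases fin3 j' with rfl | rfl | rfl
      · exact absurd rfl hjj
      · rw [fam3_zero, fam3_one]; exact hd1
      · rw [fam3_zero, fam3_two]; exact hd2
      · rw [fam3_zero, fam3_one]; exact hd1.symm
      · exact absurd rfl hjj
      · rw [fam3_one, fam3_two]; exact hd3
      · rw [fam3_zero, fam3_two]; exact hd2.symm
      · rw [fam3_one, fam3_two]; exact hd3.symm
      · exact absurd rfl hjj) (by
      intro j f hf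
      rcases fin3 j with rfl | rfl | rfl
      · rw [fam3_zero] at hf; exact hU f hf
      · rw [fam3_one] at hf; exact hV f hf
      · rw [fam3_two] at hf; exact hW f hf) (by
      intro p hp hpz
      obtain ⟨t, ht1, ht2, ht3⟩ := hloc p hp hpz
      refine ⟨t, fun j f hf => ?_⟩
      rcases fin3 j with rfl | rfl | rfl
      · rw [fam3_zero] at hf; exact ht1 f hf
      · rw [fam3_one] at hf; exact ht2 f hf
      · rw [fam3_two] at hf; exact ht3 f hf)
  rcases key with ⟨j, j', hjj, h2⟩ | ⟨j, h2⟩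
  · rcases fin3 j with rfl | rfl | rfl <;> rcases fin3 j' with rfl | rfl | rfl
    · exact absurd hjj (lt_irrefl _)
    · left
      rw [h00, fam3_zero, fam3_one] at h2
      exact h2
    · right; left
      rw [h00, fam3_zero, fam3_two] at h2
      exact h2
    · exact absurd hjj (by decide)
    · exact absurd hjj (lt_irrefl _)
    · right; right; left
      rw [h00, fam3_zero, fam3_one, fam3_two] at h2
      exact h2
    · exact absurd hjj (by decide)
    · exact absurd hjj (by decide)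
    · exact absurd hjj (lt_irrefl _)
  · right; right; right
    rcases fin3 j with rfl | rfl | rfl
    · left
      rw [fam3_zero] at h2
      exact h2
    · right; left
      rw [fam3_one] at h2
      exact h2
    · right; right
      rw [fam3_two] at h2
      exact h2

end Pool.Agent.V11161.GV
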